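import Pool.Agent.Y13.QM.Step
import Pool.Agent.H983R2.ONJ.Fin

/-! # Exponential decay on the tori with explicit constants -/

set_option autoImplicit false
set_option linter.unusedSectionVars false

noncomputable section

namespace Pool.Agent.Y13.QM

open MeasureTheory Pool.Agent.H5R2.ON Pool.Agent.H717R2.ON3 Pool.Agent.H983R2.ONJ
open Pool.Agent.H983R2.ONJ.AuxFin269

/-- the spin correlation -/
def corS {N L : ℕ} [NeZero L] (c : Tor L × Tor L → ℝ) (x y : Tor L) : ℝ :=
  (∫ S : Conf N L, inner ℝ (S x : EuclideanSpace ℝ (Fin N)) (S y) * Real.exp (pS c S)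
    ∂(prior N L)) / ∫ S : Conf N L, Real.exp (pS c S) ∂(prior N L)

theorem corS_eq {N L : ℕ} [NeZero L] (c : Tor L × Tor L → ℝ) (x y : Tor L) :
    corS (N := N) c x y = ∑ i : Fin N, corJ c i x y := by
  have hcont : ∀ (i : Fin N) (z : Tor L), Continuous fun S : Conf N L => cc i (S z) := by
    intro i z
    unfold cc
    fun_prop
  have hint : ∀ i : Fin N, Integrable (fun S : Conf N L =>
      cc i (S x) * cc i (S y) * Real.exp (pS c S)) (prior N L) := fun i =>
    integrable_prior N L (((hcont i x).mul (hcont i y)).mul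
      (Real.continuous_exp.comp (continuous_pS c)))
  unfold corS corJ
  rw [← Finset.sum_div, ← integral_finsetSum _ fun i _ => hint i]
  congr 1
  refine integral_congr_ae (Filter.Eventually.of_forall fun S => ?_)
  simp only
  rw [← Finset.sum_mul, PiLp.inner_apply]
  congr 1
  refine Finset.sum_congr rfl fun j _ => ?_
  simp only [RCLike.inner_apply, conj_trivial, cc]
  ring

theorem corS_nonneg {N L : ℕ} [NeZero L] (hN : N ≠ 0) {c : Tor L × Tor L → ℝ}
    (hc : ∀ e, 0 ≤ c e) (x y : Tor L) : 0 ≤ corS (N := N) c x y := by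
  rw [corS_eq]
  exact Finset.sum_nonneg fun i _ => corJ_nonneg hN hc i x y

theorem corS_le_one {N L : ℕ} [NeZero L] (hN : N ≠ 0) (c : Tor L × Tor L → ℝ)
    (x y : Tor L) : corS (N := N) c x y ≤ 1 := by
  unfold corS
  have he : Continuous fun S : Conf N L => Real.exp (pS c S) :=
    Real.continuous_exp.comp (continuous_pS c)
  have hi : Continuous fun S : Conf N L =>
      inner ℝ (S x : EuclideanSpace ℝ (Fin N)) (S y : EuclideanSpace ℝ (Fin N)) :=
    Continuous.inner (continuous_subtype_val.comp (continuous_apply x))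
      (continuous_subtype_val.comp (continuous_apply y))
  have := prior_isProbabilityMeasure N L hN
  have hZ : 0 < ∫ S : Conf N L, Real.exp (pS c S) ∂(prior N L) :=
    integral_exp_pos (integrable_prior N L he)
  rw [div_le_one hZ]
  refine integral_mono (integrable_prior N L (hi.mul he)) (integrable_prior N L he) fun S => ?_
  have h1 := (abs_le.1 (Aux602.inner_le_one (S x) (S y))).2
  have h2 := Real.exp_pos (pS c S)
  simp only
  nlinarith

theorem corS_exit {N L : ℕ} [NeZero L] (hN : N ≠ 0) {c : Tor L × Tor L → ℝ}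
    (hc : ∀ e, 0 ≤ c e) (p y : Tor L) (R m : ℝ) (hR : 0 < R)
    (hy : R < tnorm (y - p)) (hm0 : 0 ≤ m)
    (hm : ∀ (η : Conf N L) (i : Fin N),
      |gH (pS c) (ball p (R / 4)) η (fun S => cc i (S p))| ≤ m) :
    corS (N := N) c p y ≤ ∑ w ∈ ball p R, ∑ w' ∈ (ball p R)ᶜ,
      2 * (c (w, w') + c (w', w)) * (if tnorm (w - p) ≤ R / 2 then 1 else m) *
        corS (N := N) c w' y := by
  rw [corS_eq]
  refine (Finset.sum_le_sum fun i _ =>
    corJ_exit hN hc i p y R m hR hy hm0 fun η => hm η i).trans (le_of_eq ?_)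
  rw [Finset.sum_comm]
  refine Finset.sum_congr rfl fun w _ => ?_
  rw [Finset.sum_comm]
  refine Finset.sum_congr rfl fun w' _ => ?_
  rw [corS_eq, Finset.mul_sum]

/-- the choice of the scale -/
theorem exists_scale' (P₀ a C : ℝ) (hP₀ : 0 < P₀) (ha : 0 < a) (hC : 1 ≤ C) : ∃ C' : ℝ, 1 ≤ C' ∧
    ∀ A : ℝ, 0 ≤ A → ∃ R : ℝ, R = Real.exp (C' * (1 + A ^ 2)) ∧ 4 ≤ R ∧ 2 / a ≤ R ∧
      P₀ * A * (256 * Real.exp (C * (1 + A ^ 2)) / R ^ 2 + R ^ 2 * Real.exp (-(a * R / 8))) ≤
        1 / 2 := by
  have h1 : Filter.Tendsto (fun R : ℝ => R ^ 3 * Real.exp (-(a * R / 8))) Filter.atTop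
      (nhds 0) := by
    have h2 := Real.tendsto_pow_mul_exp_neg_atTop_nhds_zero 3
    have h3 : Filter.Tendsto (fun R : ℝ => a / 8 * R) Filter.atTop Filter.atTop :=
      Filter.tendsto_id.const_mul_atTop (by positivity)
    have h4 := (h2.comp h3).const_mul ((8 / a) ^ 3)
    rw [mul_zero] at h4
    refine h4.congr fun R => ?_
    simp only [Function.comp]
    have h5 : -(a / 8 * R) = -(a * R / 8) := by ring
    rw [h5, ← mul_assoc, ← mul_pow]
    congr 2
    field_simp
  have h2 : ∀ᶠ R : ℝ in Filter.atTop, R ^ 3 * Real.exp (-(a * R / 8)) < 1 / (4 * P₀) :=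
    h1.eventually (gt_mem_nhds (by positivity))
  obtain ⟨R₁, hR₁⟩ := Filter.eventually_atTop.1 h2
  obtain ⟨M, hM⟩ : ∃ M : ℝ, M = max R₁ (max (2 / a) (1024 * P₀)) := ⟨_, rfl⟩
  have hM1 : R₁ ≤ M := by rw [hM]; exact le_max_left _ _
  have hM2 : 2 / a ≤ M := by rw [hM]; exact (le_max_left _ _).trans (le_max_right _ _)
  have hM3 : 1024 * P₀ ≤ M := by rw [hM]; exact (le_max_right _ _).trans (le_max_right _ _)
  have hM0 : 0 < M := by
    have : 0 < 1024 * P₀ := by positivity
    linarith
  refine ⟨M + C + 4, by linarith, ?_⟩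
  intro A hA
  obtain ⟨R, hR⟩ : ∃ R : ℝ, R = Real.exp ((M + C + 4) * (1 + A ^ 2)) := ⟨_, rfl⟩
  have hRM : M + C + 4 ≤ R := by
    have h3 := Real.add_one_le_exp ((M + C + 4) * (1 + A ^ 2))
    rw [hR]
    nlinarith [sq_nonneg A, mul_nonneg (show 0 ≤ M + C + 4 by linarith) (sq_nonneg A)]
  have hR0 : 0 < R := by linarith
  have hAR : A ≤ R := by
    have h3 := one_add_le_exp_sq hA
    have h4 : Real.exp (1 + A ^ 2) ≤ R := by
      rw [hR]
      refine Real.exp_le_exp.2 ?_
      nlinarith [sq_nonneg A, mul_nonneg (show 0 ≤ M + C by linarith) (sq_nonneg A)]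
    linarith
  refine ⟨R, hR, by linarith, by linarith, ?_⟩
  have h5 : R ^ 3 * Real.exp (-(a * R / 8)) < 1 / (4 * P₀) := hR₁ R (by linarith)
  have h6 : P₀ * A * (R ^ 2 * Real.exp (-(a * R / 8))) ≤ 1 / 4 := by
    calc P₀ * A * (R ^ 2 * Real.exp (-(a * R / 8)))
        ≤ P₀ * R * (R ^ 2 * Real.exp (-(a * R / 8))) := by
          refine mul_le_mul_of_nonneg_right ?_ (by positivity)
          exact mul_le_mul_of_nonneg_left hAR hP₀.le
      _ = P₀ * (R ^ 3 * Real.exp (-(a * R / 8))) := by ring
      _ ≤ P₀ * (1 / (4 * P₀)) := mul_le_mul_of_nonneg_left h5.le hP₀.le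
      _ = 1 / 4 := by field_simp
  have h7 : P₀ * A * (256 * Real.exp (C * (1 + A ^ 2)) / R ^ 2) ≤ 1 / 4 := by
    have h8 : 1024 * P₀ * A * Real.exp (C * (1 + A ^ 2)) ≤ R ^ 2 := by
      have e1 : R ^ 2 = Real.exp ((M + 4) * (1 + A ^ 2)) * Real.exp (C * (1 + A ^ 2)) *
          Real.exp ((M + C + 4) * (1 + A ^ 2)) := by
        rw [← Real.exp_add, ← Real.exp_add, hR, ← Real.exp_nat_mul]
        congr 1
        push_cast
        ring
      have e2 : 1024 * P₀ ≤ Real.exp ((M + 4) * (1 + A ^ 2)) := by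
        have := Real.add_one_le_exp ((M + 4) * (1 + A ^ 2))
        nlinarith [sq_nonneg A, mul_nonneg (show 0 ≤ M + 4 by linarith) (sq_nonneg A)]
      rw [← hR] at e1
      calc 1024 * P₀ * A * Real.exp (C * (1 + A ^ 2))
          = (1024 * P₀) * Real.exp (C * (1 + A ^ 2)) * A := by ring
        _ ≤ Real.exp ((M + 4) * (1 + A ^ 2)) * Real.exp (C * (1 + A ^ 2)) * R := by
            refine mul_le_mul ?_ hAR hA (by positivity)
            exact mul_le_mul_of_nonneg_right e2 (Real.exp_pos _).le
        _ = R ^ 2 := e1.symm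
    have e3 : P₀ * A * (256 * Real.exp (C * (1 + A ^ 2)) / R ^ 2) =
        (1024 * P₀ * A * Real.exp (C * (1 + A ^ 2))) / R ^ 2 / 4 := by ring
    rw [e3]
    have e4 : (1024 * P₀ * A * Real.exp (C * (1 + A ^ 2))) / R ^ 2 ≤ 1 := by
      rw [div_le_one (by positivity)]
      exact h8
    linarith
  rw [mul_add]
  linarith

theorem corS_decay (a : ℝ) (ha : 0 < a) : ∃ C : ℝ, 1 ≤ C ∧ ∀ A : ℝ, 0 ≤ A → ∀ N : ℕ, 3 ≤ N →
    ∀ (L : ℕ) [NeZero L] (c : Tor L × Tor L → ℝ), ExpC A a c → ∀ (x y : Tor L),
      corS (N := N) c x y ≤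
        Real.exp 2 * Real.exp (-Real.exp (-(C * (1 + A ^ 2))) * tnorm (x - y)) := by
  obtain ⟨C1, hC1, hMB'⟩ := MBJ_decay' a ha
  obtain ⟨K0, hK0, hK⟩ := card_ball_le
  obtain ⟨Kl, hKl0, hKl⟩ := lsum (a / 4) (by positivity)
  obtain ⟨C', hC', hsc⟩ := exists_scale' (16 * Real.exp 1 * K0 * Kl) a C1 (by positivity) ha hC1
  refine ⟨C', hC', ?_⟩
  intro A hA N hN L _ c hc
  have hN0 : N ≠ 0 := by omega
  obtain ⟨R, hRe, hR4, hRa, hR'⟩ := hsc A hA
  obtain ⟨C0, hC0e⟩ : ∃ C0 : ℝ, C0 = Real.exp (C1 * (1 + A ^ 2)) := ⟨_, rfl⟩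
  have hC0 : 0 < C0 := by rw [hC0e]; exact Real.exp_pos _
  have hMB : ∀ R : ℝ, 1 ≤ R → MBJ N A a R (C0 / R ^ 4) := by
    rw [hC0e]; exact hMB' A hA N hN
  rw [← hC0e] at hR'
  have hR : (16 * A * Real.exp 1 * K0 * Kl) * (256 * C0 / R ^ 2 +
      R ^ 2 * Real.exp (-(a * R / 8))) ≤ 1 / 2 := by
    refine le_trans (le_of_eq ?_) hR'
    ring
  have hR0 : 0 < R := by linarith
  obtain ⟨b, hb⟩ : ∃ b : ℝ, b = Real.exp (-(C' * (1 + A ^ 2))) := ⟨_, rfl⟩
  have hbR' : b = 1 / R := by
    rw [hb, hRe, Real.exp_neg, one_div]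
  have hb0 : 0 < b := by rw [hb]; exact Real.exp_pos _
  have hba : b ≤ a / 2 := by
    rw [hbR', div_le_iff₀ hR0]
    rw [div_le_iff₀ ha] at hRa
    linarith
  have hbR : b * R ≤ 1 := by
    rw [hbR']
    exact (one_div_mul_cancel hR0.ne').le
  rw [← hb]
  have hc0 : ∀ e, 0 ≤ c e := fun e => (hc e).1
  by_cases hL : (L : ℝ) ≤ 2 * R
  · intro x y
    have h1 := corS_le_one hN0 c x y
    have h2 : tnorm (x - y) ≤ 2 * R := (tnorm_le_L _).trans hL
    rw [← Real.exp_add]
    refine h1.trans (Real.one_le_exp ?_)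
    nlinarith
  push Not at hL
  obtain ⟨m, hm⟩ : ∃ m : ℝ, m = C0 / (R / 4) ^ 4 := ⟨_, rfl⟩
  have hm0 : 0 ≤ m := by rw [hm]; positivity
  -- the maximum
  obtain ⟨q, -, hq⟩ := Finset.exists_max_image (Finset.univ : Finset (Tor L × Tor L))
    (fun q => corS (N := N) c q.1 q.2 * Real.exp (b * tnorm (q.1 - q.2))) ⟨(0, 0), Finset.mem_univ _⟩
  obtain ⟨M, hM⟩ : ∃ M : ℝ, M = corS (N := N) c q.1 q.2 * Real.exp (b * tnorm (q.1 - q.2)) :=
    ⟨_, rfl⟩
  have hmax : ∀ x y : Tor L, corS (N := N) c x y ≤ M * Real.exp (-(b * tnorm (x - y))) := by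
    intro x y
    have h1 := hq (x, y) (Finset.mem_univ _)
    simp only at h1
    rw [← hM] at h1
    rw [Real.exp_neg, ← div_eq_mul_inv, le_div_iff₀ (Real.exp_pos _)]
    exact h1
  have hM0 : 0 ≤ M := by
    rw [hM]
    exact mul_nonneg (corS_nonneg hN0 hc0 _ _) (Real.exp_pos _).le
  -- it is at most `e`
  have hMe : M ≤ Real.exp 1 := by
    obtain ⟨p, y⟩ := q
    simp only at hM
    by_cases hpy : tnorm (p - y) ≤ R
    · rw [hM]
      have h1 := corS_le_one hN0 c p y
      have h2 : Real.exp (b * tnorm (p - y)) ≤ Real.exp 1 := by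
        refine Real.exp_le_exp.mpr ?_
        nlinarith
      have h3 := corS_nonneg hN0 hc0 p y
      have h4 := Real.exp_pos (b * tnorm (p - y))
      nlinarith
    · push Not at hpy
      have hyp : R < tnorm (y - p) := by rw [tnorm_sub_comm]; exact hpy
      have hexit := corS_exit hN0 hc0 p y R m hR0 hyp hm0 (fun η i => by
        rw [hm]
        exact hMB (R / 4) (by linarith) L (by linarith) c hc p η i)
      -- one term
      obtain ⟨g, hg⟩ : ∃ g : Tor L → ℝ, g = fun z => Real.exp (-(a / 4) * tnorm z) := ⟨_, rfl⟩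
      have hg0 : ∀ z, 0 ≤ g z := fun z => by rw [hg]; exact (Real.exp_pos _).le
      have hgsum : ∑ z : Tor L, g z ≤ Kl := by
        refine (Finset.sum_le_sum fun z _ => ?_).trans (hKl L)
        rw [hg]
        simp only
        have h1 : (1 : ℝ) ≤ (1 + tnorm z) ^ 2 := by
          have := tnorm_nonneg z
          nlinarith
        have h2 := Real.exp_pos (-(a / 4) * tnorm z)
        nlinarith
      have hterm : ∀ w ∈ ball p R, ∀ w' ∈ (ball p R)ᶜ,
          2 * (c (w, w') + c (w', w)) * (if tnorm (w - p) ≤ R / 2 then 1 else m) *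
            corS (N := N) c w' y * Real.exp (b * tnorm (p - y)) ≤
          4 * A * Real.exp 1 * M * ((m + Real.exp (-(a * R / 8))) * g (w' - w)) := by
        intro w hw w' hw'
        simp only [ball, Finset.mem_filter, Finset.mem_univ, true_and, Finset.mem_compl,
          not_le] at hw hw'
        obtain ⟨t, ht⟩ : ∃ t : ℝ, t = tnorm (w' - w) := ⟨_, rfl⟩
        have ht0 : 0 ≤ t := by rw [ht]; exact tnorm_nonneg _
        -- the couplings
        have h1 : c (w, w') ≤ A * Real.exp (-a * t) := by rw [ht]; exact (hc (w, w')).2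
        have h2 : c (w', w) ≤ A * Real.exp (-a * t) := by
          rw [ht, tnorm_sub_comm]; exact (hc (w', w)).2
        have h3 : 0 ≤ c (w, w') + c (w', w) := add_nonneg (hc0 _) (hc0 _)
        -- the factor
        obtain ⟨f, hf⟩ : ∃ f : ℝ, f = (if tnorm (w - p) ≤ R / 2 then 1 else m) := ⟨_, rfl⟩
        rw [← hf]
        have hf0 : 0 ≤ f := by
          rw [hf]
          split_ifs
          · exact zero_le_one
          · exact hm0
        have hfg : f * Real.exp (-(a / 2) * t) ≤
            (m + Real.exp (-(a * R / 8))) * Real.exp (-(a / 4) * t) := by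
          by_cases h : tnorm (w - p) ≤ R / 2
          · rw [hf, if_pos h, one_mul]
            have h4 : R / 2 ≤ t := by
              have := tnorm_add_le (w' - w) (w - p)
              rw [sub_add_sub_cancel] at this
              rw [ht]
              linarith
            have h5 : Real.exp (-(a / 2) * t) ≤
                Real.exp (-(a * R / 8)) * Real.exp (-(a / 4) * t) := by
              rw [← Real.exp_add]
              refine Real.exp_le_exp.mpr ?_
              nlinarith
            refine h5.trans (mul_le_mul_of_nonneg_right ?_ (Real.exp_pos _).le)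
            linarith
          · rw [hf, if_neg h]
            refine mul_le_mul ?_ ?_ (Real.exp_pos _).le ?_
            · have := Real.exp_pos (-(a * R / 8))
              linarith
            · refine Real.exp_le_exp.mpr ?_
              nlinarith
            · have := Real.exp_pos (-(a * R / 8))
              linarith
        -- the triangle inequality
        have h6 : tnorm (p - y) ≤ R + t + tnorm (w' - y) := by
          have e1 := tnorm_add_le (p - w) (w - y)
          have e2 := tnorm_add_le (w - w') (w' - y)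
          rw [sub_add_sub_cancel] at e1 e2
          rw [tnorm_sub_comm p w] at e1
          rw [tnorm_sub_comm w w'] at e2
          rw [ht]
          linarith
        have h7 : Real.exp (b * tnorm (p - y)) ≤
            Real.exp 1 * Real.exp ((a / 2) * t) * Real.exp (b * tnorm (w' - y)) := by
          rw [← Real.exp_add, ← Real.exp_add]
          refine Real.exp_le_exp.mpr ?_
          nlinarith
        have h8 := hmax w' y
        have h9 := corS_nonneg hN0 hc0 w' y
        have h10 : corS (N := N) c w' y * Real.exp (b * tnorm (p - y)) ≤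
            M * (Real.exp 1 * Real.exp ((a / 2) * t)) := by
          calc corS (N := N) c w' y * Real.exp (b * tnorm (p - y))
              ≤ (M * Real.exp (-(b * tnorm (w' - y)))) *
                (Real.exp 1 * Real.exp ((a / 2) * t) * Real.exp (b * tnorm (w' - y))) :=
                mul_le_mul h8 h7 (Real.exp_pos _).le (by positivity)
            _ = M * (Real.exp 1 * Real.exp ((a / 2) * t)) *
                (Real.exp (-(b * tnorm (w' - y))) * Real.exp (b * tnorm (w' - y))) := by ring
            _ = M * (Real.exp 1 * Real.exp ((a / 2) * t)) := by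
                have h12 : Real.exp (-(b * tnorm (w' - y))) * Real.exp (b * tnorm (w' - y)) = 1 := by
                  rw [← Real.exp_add, neg_add_cancel, Real.exp_zero]
                rw [h12, mul_one]
        have hgw : g (w' - w) = Real.exp (-(a / 4) * t) := by rw [hg, ht]
        rw [hgw]
        have h11 : Real.exp (-a * t) * Real.exp ((a / 2) * t) = Real.exp (-(a / 2) * t) := by
          rw [← Real.exp_add]
          congr 1
          ring
        calc 2 * (c (w, w') + c (w', w)) * f * corS (N := N) c w' y * Real.exp (b * tnorm (p - y))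
            = (2 * (c (w, w') + c (w', w)) * f) *
              (corS (N := N) c w' y * Real.exp (b * tnorm (p - y))) := by ring
          _ ≤ (4 * (A * Real.exp (-a * t)) * f) *
              (M * (Real.exp 1 * Real.exp ((a / 2) * t))) := by
              refine mul_le_mul ?_ h10 (mul_nonneg h9 (Real.exp_pos _).le) (by positivity)
              refine mul_le_mul_of_nonneg_right ?_ hf0
              linarith
          _ = 4 * A * Real.exp 1 * M *
              (f * (Real.exp (-a * t) * Real.exp ((a / 2) * t))) := by ring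
          _ = 4 * A * Real.exp 1 * M * (f * Real.exp (-(a / 2) * t)) := by rw [h11]
          _ ≤ 4 * A * Real.exp 1 * M *
              ((m + Real.exp (-(a * R / 8))) * Real.exp (-(a / 4) * t)) :=
              mul_le_mul_of_nonneg_left hfg (by positivity)
      -- the sum
      have hsum : M ≤ 4 * A * Real.exp 1 * M *
          ((m + Real.exp (-(a * R / 8))) * (K0 * (1 + R) ^ 2 * Kl)) := by
        have hmE : 0 ≤ m + Real.exp (-(a * R / 8)) := by
          have := Real.exp_pos (-(a * R / 8))
          linarith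
        calc M = corS (N := N) c p y * Real.exp (b * tnorm (p - y)) := hM
          _ ≤ (∑ w ∈ ball p R, ∑ w' ∈ (ball p R)ᶜ,
              2 * (c (w, w') + c (w', w)) * (if tnorm (w - p) ≤ R / 2 then 1 else m) *
              corS (N := N) c w' y) * Real.exp (b * tnorm (p - y)) :=
              mul_le_mul_of_nonneg_right hexit (Real.exp_pos _).le
          _ = ∑ w ∈ ball p R, ∑ w' ∈ (ball p R)ᶜ,
              2 * (c (w, w') + c (w', w)) * (if tnorm (w - p) ≤ R / 2 then 1 else m) *
              corS (N := N) c w' y * Real.exp (b * tnorm (p - y)) := by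
              rw [Finset.sum_mul]
              exact Finset.sum_congr rfl fun w _ => Finset.sum_mul _ _ _
          _ ≤ ∑ w ∈ ball p R, ∑ w' ∈ (ball p R)ᶜ,
              4 * A * Real.exp 1 * M * ((m + Real.exp (-(a * R / 8))) * g (w' - w)) :=
              Finset.sum_le_sum fun w hw => Finset.sum_le_sum fun w' hw' => hterm w hw w' hw'
          _ ≤ ∑ w ∈ ball p R,
              4 * A * Real.exp 1 * M * ((m + Real.exp (-(a * R / 8))) * Kl) := by
              refine Finset.sum_le_sum fun w _ => ?_
              rw [← Finset.mul_sum, ← Finset.mul_sum]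
              refine mul_le_mul_of_nonneg_left (mul_le_mul_of_nonneg_left ?_ hmE) (by positivity)
              calc ∑ w' ∈ (ball p R)ᶜ, g (w' - w) ≤ ∑ w' : Tor L, g (w' - w) :=
                    Finset.sum_le_univ_sum_of_nonneg fun w' => hg0 _
                _ = ∑ z : Tor L, g z := sum_shift g w
                _ ≤ Kl := hgsum
          _ = ((ball p R).card : ℝ) *
              (4 * A * Real.exp 1 * M * ((m + Real.exp (-(a * R / 8))) * Kl)) := by
              rw [Finset.sum_const, nsmul_eq_mul]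
          _ ≤ (K0 * (1 + R) ^ 2) *
              (4 * A * Real.exp 1 * M * ((m + Real.exp (-(a * R / 8))) * Kl)) := by
              refine mul_le_mul_of_nonneg_right (hK L p R hR0.le) (by positivity)
          _ = _ := by ring
      have hcoef : 4 * A * Real.exp 1 *
          ((m + Real.exp (-(a * R / 8))) * (K0 * (1 + R) ^ 2 * Kl)) ≤ 1 / 2 := by
        refine le_trans ?_ hR
        have hE := Real.exp_pos (-(a * R / 8))
        have h1 : (1 + R) ^ 2 ≤ 4 * R ^ 2 := by nlinarith
        have h2 : 4 * A * Real.exp 1 *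
            ((m + Real.exp (-(a * R / 8))) * (K0 * (1 + R) ^ 2 * Kl)) ≤
            4 * A * Real.exp 1 *
            ((m + Real.exp (-(a * R / 8))) * (K0 * (4 * R ^ 2) * Kl)) := by
          gcongr
        refine h2.trans (le_of_eq ?_)
        have h3 : m * R ^ 2 = 256 * C0 / R ^ 2 := by
          rw [hm]
          field_simp
          norm_num
        calc 4 * A * Real.exp 1 * ((m + Real.exp (-(a * R / 8))) * (K0 * (4 * R ^ 2) * Kl))
            = 16 * A * Real.exp 1 * K0 * Kl * (m * R ^ 2 + R ^ 2 * Real.exp (-(a * R / 8))) := by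
              ring
          _ = _ := by rw [h3]
      have hfin : M ≤ 1 / 2 * M := by
        calc M ≤ 4 * A * Real.exp 1 * M *
              ((m + Real.exp (-(a * R / 8))) * (K0 * (1 + R) ^ 2 * Kl)) := hsum
          _ = (4 * A * Real.exp 1 *
              ((m + Real.exp (-(a * R / 8))) * (K0 * (1 + R) ^ 2 * Kl))) * M := by ring
          _ ≤ 1 / 2 * M := mul_le_mul_of_nonneg_right hcoef hM0
      have := Real.exp_pos 1
      linarith
  intro x y
  refine (hmax x y).trans ?_
  rw [neg_mul]
  refine mul_le_mul_of_nonneg_right (hMe.trans ?_) (Real.exp_pos _).le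
  exact Real.exp_le_exp.mpr (by norm_num)

end Pool.Agent.Y13.QM
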