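import Pool.Agent.Y13.QM.Phi
import Pool.Agent.H983R2.ONJ.Main0

/-! # Correlation of two scales, with the exponentially small factor of a chain of cut-offs -/

set_option autoImplicit false
set_option linter.unusedSectionVars false

noncomputable section

namespace Pool.Agent.Y13.QM

open MvPolynomial Pool.Agent.H5R2.ON Pool.Agent.H717R2.ON3 Pool.Agent.H983R2.ONJ

/-- one piece of the smaller scale against the larger scale -/
theorem cross_piece (K : ℝ) (hK : 0 ≤ K) (K₁ : ℝ) (hK₁ : 0 < K₁)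
    (R l l' ρ β : ℝ) (m : ℕ) (hl : 1 ≤ l) (hρ : 0 ≤ ρ) (hρl : ρ ≤ l) (hll : 16 * l ≤ l')
    (hR : 100 * l' ≤ R) (L : ℕ) [NeZero L] {ι : Type} [Fintype ι]
    (G : Gr (Tor L) ι) (hG : Nice G β ρ K) (p : Tor L)
    (W : WFun G β (ball p R)) (a : Tor L)
    (hgeo : (β ^ 2 * (En G (th l a) * En G (fun x => tt l a x * (fR R p x - fR R p a)) +
      En G (fun x => th l a x * (fR R p x - fR R p a)) * En G (tt l a)) ≤
        K₁ * K ^ 2 / (l ^ 2 * R ^ 2)) ∧
    β * En G (fun x => ch l a x * (fR R p x - fR R p a)) ≤ K₁ * K * l ^ 2 / R ^ 2 ∧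
    β * En G (fR R p) ≤ K₁ * K ∧
    β * ∑ e, ka R p l a (G.s e) (G.t e) ^ 2 ≤ K₁ * K / (l ^ 2 * R ^ 2))
    (hch : tnorm (a - p) ≤ 7 * R / 10 →
      Chain G β (ball p R) (3 / 4) m {z | tnorm (z - a) ≤ 7 * l}) :
    |W.E (UU G β (kl R p l') 2 * UU G β (ka R p l a) 2)| ≤
      9 * (1 / 2) ^ m * √(51 * K₁ ^ 2 * K ^ 3) / R ^ 2 := by
  have hβ : 0 ≤ β := hG.beta
  have hl' : 1 ≤ l' := by linarith
  have hR0 : 0 < R := by linarith
  have hl0 : 0 < l := by linarith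
  have hRl : 100 * l ≤ R := by linarith
  by_cases hz : ∃ x y, ka R p l a x y ≠ 0
  swap
  · push Not at hz
    have : ka R p l a = fun _ _ => 0 := by
      funext x y
      exact hz x y
    rw [this, UU_zero]
    simp
    positivity
  obtain ⟨x₀, y₀, h0⟩ := hz
  have ha := (ka_supp hl hRl h0).2.2.2.2.2.2
  have hin : ∀ x r, tnorm (x - a) ≤ r → r ≤ 3 * R / 10 → x ∈ ball p R := by
    intro x r hx hr
    rw [mem_ball]
    have h1 : tnorm (x - p) ≤ tnorm (x - a) + tnorm (a - p) := tri x a p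
    linarith
  have hlocU : ∀ h, Loc {z : Tor L | tnorm (z - a) ≤ 4 * l} (UU G β (ka R p l a) h) := by
    intro h
    refine Loc_UU G β (B := {z | tnorm (z - a) ≤ 3 * l}) ?_ ?_ h
    · intro u v huv
      have := ka_supp hl hRl huv
      exact ⟨this.1, this.2.1⟩
    · intro e he
      have := edge_nearJ hG e a (3 * l) he hρ
      constructor
      · show tnorm _ ≤ _
        linarith [this.1]
      · show tnorm _ ≤ _
        linarith [this.2]
  have hbsupp : ∀ x, ch l a x * (fR R p x - fR R p a) ≠ 0 → tnorm (x - a) ≤ 6 * l :=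
    fun x hx => ch_supp hl (left_ne_zero_of_mul hx)
  have hbΛ : ∀ x, x ∉ ball p R → ch l a x * (fR R p x - fR R p a) = 0 := by
    intro x hx
    by_contra h
    exact hx (hin x (6 * l) (hbsupp x h) (by linarith))
  have hcross := W.cross_id (k' := kl R p l') (kl_anti R p l')
    (by
      intro x y hxy
      have := kl_supp hl' hR hxy
      rw [mem_ball, mem_ball]
      exact ⟨by linarith [this.2.2.1], by linarith [this.2.2.2]⟩)
    (f := fR R p)
    (by
      intro x hx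
      rw [mem_ball, not_le] at hx
      exact fR_far R hR0 p x (by linarith))
    (fun e => kl_edgeJ hG hl' (by linarith) hR p e)
    (k := ka R p l a) (ka_anti R p l a)
    (A := {z : Tor L | tnorm (z - a) ≤ 4 * l}) hlocU
    (by
      intro x hx y hy
      refine kl_near hl' hR p ?_
      have h1 : tnorm (x - y) ≤ tnorm (x - a) + tnorm (a - y) := tri x a y
      rw [tnorm_sub_comm a y] at h1
      have hx' : tnorm (x - a) ≤ 4 * l := hx
      have hy' : tnorm (y - a) ≤ 4 * l := hy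
      linarith)
    (c := fR R p a) (b := fun x => ch l a x * (fR R p x - fR R p a))
    (by
      intro x hx
      have hx' : tnorm (x - a) ≤ 4 * l := hx
      show ch l a x * _ = _
      rw [ch_one hl (by linarith), one_mul])
    hbΛ
    (fun x hx => hin x (4 * l) hx (by linarith))
  rw [hcross]
  set E1 : ℝ := En G (th l a) * En G (fun x => tt l a x * (fR R p x - fR R p a)) +
      En G (fun x => th l a x * (fR R p x - fR R p a)) * En G (tt l a) with hE1
  set E2 : ℝ := En G (fun x => ch l a x * (fR R p x - fR R p a)) with hE2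
  set T : Fin 3 → Fin 3 → Alg (Tor L) := fun g h =>
    Sc G β (fun x => ch l a x * (fR R p x - fR R p a)) g * UU G β (ka R p l a) h with hT
  have hQ : ∀ g h, W.E (T g h ^ 2) ≤ 51 * β ^ 3 * E2 * E1 := by
    intro g h
    refine W.T_sq hβ ?_ ?_ hbΛ g h le_rfl le_rfl
    · intro x hx
      by_contra h'
      exact hx (hin x l (th_supp hl h') (by linarith))
    · intro x hx
      by_contra h'
      exact hx (hin x (3 * l) (tt_supp hl h') (by linarith))
  have hcov : Cov T := cov_mul (covV_Sc _) (covV_UU (ka_anti R p l a))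
  have hloc : ∀ g h, Loc {z : Tor L | tnorm (z - a) ≤ 7 * l} (T g h) := by
    intro g h
    refine Loc.mul ?_ ?_
    · refine Loc_Sc G β (B := {z | tnorm (z - a) ≤ 6 * l}) hbsupp ?_ g
      intro e he
      have := edge_nearJ hG e a (6 * l) he hρ
      constructor
      · show tnorm _ ≤ _
        linarith [this.1]
      · show tnorm _ ≤ _
        linarith [this.2]
    · refine (hlocU h).mono ?_
      intro x hx
      have hx' : tnorm (x - a) ≤ 4 * l := hx
      show tnorm _ ≤ _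
      linarith
  have hs := chain_bound W hβ le_rfl m _ T hcov hloc (hch ha)
  have hee : ee W T = W.E (T 0 0) + W.E (T 1 1) - 2 * W.E (T 2 2) := rfl
  rw [hee] at hs
  refine hs.trans ?_
  have hEn : ∀ f : Tor L → ℝ, 0 ≤ En G f := fun f => by
    unfold En
    exact Finset.sum_nonneg fun e _ => _root_.sq_nonneg _
  have hE1n : 0 ≤ E1 := add_nonneg (mul_nonneg (hEn _) (hEn _)) (mul_nonneg (hEn _) (hEn _))
  have hE2n : 0 ≤ E2 := hEn _
  have hsqn : W.E (sqn T) ≤ 9 * (51 * β ^ 3 * E2 * E1) := by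
    unfold sqn
    rw [map_sum]
    have h1 : ∀ g : Fin 3, W.E (∑ h, T g h ^ 2) ≤ 3 * (51 * β ^ 3 * E2 * E1) := by
      intro g
      rw [map_sum]
      refine (Finset.sum_le_sum fun h _ => hQ g h).trans (le_of_eq ?_)
      rw [Finset.sum_const, Finset.card_univ, Fintype.card_fin, nsmul_eq_mul]
      norm_num
    refine (Finset.sum_le_sum fun g _ => h1 g).trans (le_of_eq ?_)
    rw [Finset.sum_const, Finset.card_univ, Fintype.card_fin, nsmul_eq_mul]
    ring
  have e1 : 9 * (51 * β ^ 3 * E2 * E1) ≤ 9 * (51 * K₁ ^ 2 * K ^ 3 / (R ^ 2) ^ 2) := by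
    have e2 : (β * E2) * (β ^ 2 * E1) ≤ K₁ ^ 2 * K ^ 3 / (R ^ 2) ^ 2 := by
      calc (β * E2) * (β ^ 2 * E1) ≤ (K₁ * K * l ^ 2 / R ^ 2) * (K₁ * K ^ 2 / (l ^ 2 * R ^ 2)) :=
            mul_le_mul hgeo.2.1 hgeo.1 (by positivity) (by positivity)
        _ = K₁ ^ 2 * K ^ 3 / (R ^ 2) ^ 2 := by
            field_simp
    calc 9 * (51 * β ^ 3 * E2 * E1) = 459 * ((β * E2) * (β ^ 2 * E1)) := by ring
      _ ≤ 459 * (K₁ ^ 2 * K ^ 3 / (R ^ 2) ^ 2) := by linarith
      _ = _ := by ring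
  have e4 : √(W.E (sqn T)) ≤ 3 * (√(51 * K₁ ^ 2 * K ^ 3) / R ^ 2) := by
    refine (Real.sqrt_le_sqrt (hsqn.trans e1)).trans (le_of_eq ?_)
    rw [Real.sqrt_mul (by norm_num), Real.sqrt_div (by positivity), Real.sqrt_sq (by positivity),
      show (9 : ℝ) = 3 ^ 2 by norm_num, Real.sqrt_sq (by norm_num)]
  calc 3 * (1 / 2 : ℝ) ^ m * √(W.E (sqn T))
      ≤ 3 * (1 / 2) ^ m * (3 * (√(51 * K₁ ^ 2 * K ^ 3) / R ^ 2)) :=
        mul_le_mul_of_nonneg_left e4 (by positivity)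
    _ = _ := by ring

/-- correlation of two different scales -/
theorem cross_scale : ∃ C : ℝ, 0 < C ∧ ∀ K : ℝ, 0 ≤ K → ∀ (R l l' ρ β : ℝ) (m : ℕ), 1 ≤ l →
    0 ≤ ρ → ρ ≤ l → 16 * l ≤ l' → 100 * l' ≤ R → ∀ (L : ℕ) [NeZero L], 2 * R < L →
      ∀ {ι : Type} [Fintype ι] (G : Gr (Tor L) ι), Nice G β ρ K → ∀ (p : Tor L)
      (W : WFun G β (ball p R)),
      (∀ a : Tor L, tnorm (a - p) ≤ 7 * R / 10 →
        Chain G β (ball p R) (3 / 4) m {z | tnorm (z - a) ≤ 7 * l}) →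
      |W.E (UU G β (kl R p l') 2 * UU G β (kl R p l) 2)| ≤ C * (1 + K ^ 2) * (1 / 2) ^ m := by
  obtain ⟨K₁, hK₁, hgeo⟩ := geoJ
  obtain ⟨K', hK', hcard⟩ := ball_card
  refine ⟨K' * 4 * (9 * √(51 * K₁ ^ 2)) + 1, by positivity, ?_⟩
  intro K hK R l l' ρ β m hl hρ hρl hll hR L _ hL ι _ G hG p W hch
  have hR0 : 0 < R := by linarith
  have hR1 : 1 ≤ R := by linarith
  have hsum : UU G β (kl R p l) 2 = ∑ a ∈ ball p R, UU G β (ka R p l a) 2 :=
    UU_sum G β (ball p R) (fun a => ka R p l a) 2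
  rw [hsum, Finset.mul_sum, map_sum]
  have h1 : |∑ a ∈ ball p R, W.E (UU G β (kl R p l') 2 * UU G β (ka R p l a) 2)| ≤
      ∑ a ∈ ball p R, 9 * (1 / 2) ^ m * √(51 * K₁ ^ 2 * K ^ 3) / R ^ 2 := by
    refine (Finset.abs_sum_le_sum_abs _ _).trans (Finset.sum_le_sum fun a _ => ?_)
    exact cross_piece K hK K₁ hK₁ R l l' ρ β m hl hρ hρl hll hR L G hG p W a
      (hgeo L G β ρ K hG hρ hK p a R l hl hρl (by linarith) hL) (hch a)
  refine h1.trans ?_
  rw [Finset.sum_const, nsmul_eq_mul]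
  have h2 : ((ball p R).card : ℝ) ≤ K' * 4 * R ^ 2 := by
    refine (hcard L p R hR0.le).trans ?_
    have : (1 + R) ^ 2 ≤ 4 * R ^ 2 := by nlinarith
    calc K' * (1 + R) ^ 2 ≤ K' * (4 * R ^ 2) := mul_le_mul_of_nonneg_left this hK'.le
      _ = _ := by ring
  have hs3 : √(51 * K₁ ^ 2 * K ^ 3) ≤ √(51 * K₁ ^ 2) * (1 + K ^ 2) := by
    rw [Real.sqrt_mul (by positivity)]
    refine mul_le_mul_of_nonneg_left ?_ (Real.sqrt_nonneg _)
    rw [Real.sqrt_le_left (by positivity)]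
    nlinarith [mul_nonneg hK hK, mul_nonneg (mul_nonneg hK hK) hK, sq_nonneg (K ^ 2 - K / 2),
      sq_nonneg (K - 1)]
  have h3 : 0 ≤ 9 * (1 / 2 : ℝ) ^ m * √(51 * K₁ ^ 2 * K ^ 3) / R ^ 2 := by positivity
  calc ((ball p R).card : ℝ) * (9 * (1 / 2) ^ m * √(51 * K₁ ^ 2 * K ^ 3) / R ^ 2)
      ≤ K' * 4 * R ^ 2 * (9 * (1 / 2) ^ m * √(51 * K₁ ^ 2 * K ^ 3) / R ^ 2) :=
        mul_le_mul_of_nonneg_right h2 h3
    _ = K' * 4 * (9 * (1 / 2) ^ m * √(51 * K₁ ^ 2 * K ^ 3)) := by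
        field_simp
    _ ≤ K' * 4 * (9 * (1 / 2) ^ m * (√(51 * K₁ ^ 2) * (1 + K ^ 2))) := by
        refine mul_le_mul_of_nonneg_left ?_ (by positivity)
        exact mul_le_mul_of_nonneg_left hs3 (by positivity)
    _ = K' * 4 * (9 * √(51 * K₁ ^ 2)) * (1 + K ^ 2) * (1 / 2) ^ m := by ring
    _ ≤ (K' * 4 * (9 * √(51 * K₁ ^ 2)) + 1) * (1 + K ^ 2) * (1 / 2) ^ m := by
        have h4 : 0 ≤ (1 + K ^ 2) * (1 / 2 : ℝ) ^ m := by positivity
        nlinarith

end Pool.Agent.Y13.QM
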