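import Pool.Agent.H983R2.ONJ.Main0

/-! # The bound on one scale, with the dependence on the coupling (after `H856R2/ONJ/Main1`) -/

set_option autoImplicit false

noncomputable section

namespace Pool.Agent.Y13.QM

open MvPolynomial Pool.Agent.H5R2.ON Pool.Agent.H717R2.ON3 Pool.Agent.H983R2.ONJ

theorem single_scale : ∃ C : ℝ, 0 < C ∧ ∀ K : ℝ, 0 ≤ K → ∀ R l ρ β : ℝ, 1 ≤ l → 0 ≤ ρ →
    ρ ≤ l → 100 * l ≤ R → ∀ (L : ℕ) [NeZero L], 2 * R < L → ∀ {ι : Type} [Fintype ι]
      (G : Gr (Tor L) ι), Nice G β ρ K → ∀ (p : Tor L)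
      (W : WFun G β (ball p R)), W.E (UU G β (kl R p l) 2 ^ 2) ≤ C * (1 + K ^ 2) := by
  obtain ⟨K₁, hK₁, hgeo⟩ := geoJ
  obtain ⟨K', hK', hnear⟩ := near_count
  refine ⟨K₁ + K' * (12 * K₁ + 4 * K₁), by positivity, ?_⟩
  intro K hK R l ρ β hl hρ0 hρ hR L _ hL ι _ G hG p W
  have hβ : 0 ≤ β := hG.beta
  have hR0 : 0 < R := by linarith
  have hlR : l ≤ R := by linarith
  have hl0 : 0 < l := by linarith
  have hg := fun a : Tor L => hgeo L G β ρ K hG hρ0 hK p a R l hl hρ hR hL
  have hfar : ∀ a ∈ ball p R, ∀ b ∈ ball p R, ¬(tnorm (a - b) ≤ 7 * l) → ∀ x y,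
      ka R p l a x y ≠ 0 → ∀ h h', D x h (UU G β (ka R p l b) h') = 0 ∧
        D x h (JJ G β (fun e => ka R p l b (G.s e) (G.t e)) h') = 0 := by
    intro a _ b _ hab x y hxy h h'
    have hx := (ka_supp hl hR hxy).1
    have hxb : ¬ tnorm (x - b) ≤ 3 * l + ρ := by
      intro hxb
      apply hab
      have h1 : tnorm (a - b) ≤ tnorm (a - x) + tnorm (x - b) := by
        have := tnorm_add_le (a - x) (x - b)
        simpa using this
      rw [tnorm_sub_comm a x] at h1
      linarith
    constructor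
    · refine Loc_UU G β (A := {z | tnorm (z - b) ≤ 3 * l + ρ})
        (B := {z | tnorm (z - b) ≤ 3 * l}) ?_ ?_ h' x hxb h
      · intro u v huv
        have := ka_supp hl hR huv
        exact ⟨this.1, this.2.1⟩
      · intro e he
        exact edge_nearJ hG e b (3 * l) he hρ0
    · refine Loc_JJ G β (A := {z | tnorm (z - b) ≤ 3 * l + ρ}) ?_ h' x hxb h
      intro e he
      have := ka_supp hl hR he
      constructor
      · show tnorm _ ≤ _
        linarith [this.1]
      · show tnorm _ ≤ _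
        linarith [this.2.1]
  have hA0 : 0 ≤ 6 * (K₁ * K ^ 2 / (l ^ 2 * R ^ 2)) := by positivity
  have hB0 : 0 ≤ 4 * (K₁ * K / (l ^ 2 * R ^ 2)) := by positivity
  have hA : ∀ a ∈ ball p R, W.E (UU G β (ka R p l a) 2 ^ 2) ≤
      6 * (K₁ * K ^ 2 / (l ^ 2 * R ^ 2)) := by
    intro a _
    by_cases hz : ∃ x y, ka R p l a x y ≠ 0
    · obtain ⟨x₀, y₀, h0⟩ := hz
      have ha := (ka_supp hl hR h0).2.2.2.2.2.2
      have hin : ∀ x, tnorm (x - a) ≤ 3 * l → x ∈ ball p R := by
        intro x hx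
        rw [mem_ball]
        have h1 : tnorm (x - p) ≤ tnorm (x - a) + tnorm (a - p) := by
          have := tnorm_add_le (x - a) (a - p)
          simpa using this
        linarith
      have h2 := W.kp_sq hβ (h := fun x => fR R p x - fR R p a) (θ := th l a) (τ := tt l a)
        (by
          intro x hx
          by_contra h
          exact hx (hin x ((th_supp hl h).trans (by linarith))))
        (by
          intro x hx
          by_contra h
          exact hx (hin x (tt_supp hl h))) 2 (le_refl _)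
      have h3 := (hg a).1
      refine h2.trans ?_
      calc 6 * β ^ 2 * (En G (th l a) * En G (fun x => tt l a x * (fR R p x - fR R p a)) +
            En G (fun x => th l a x * (fR R p x - fR R p a)) * En G (tt l a))
          = 6 * (β ^ 2 * (En G (th l a) * En G (fun x => tt l a x * (fR R p x - fR R p a)) +
            En G (fun x => th l a x * (fR R p x - fR R p a)) * En G (tt l a))) := by ring
        _ ≤ _ := by linarith
    · push Not at hz
      have : ka R p l a = fun _ _ => 0 := by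
        funext x y
        exact hz x y
      rw [this, UU_zero]
      simpa using hA0
  have hB : ∀ a ∈ ball p R, 4 * β * ∑ e, ka R p l a (G.s e) (G.t e) ^ 2 ≤
      4 * (K₁ * K / (l ^ 2 * R ^ 2)) := by
    intro a _
    have := (hg a).2.2.2
    linarith
  have key := W.single hβ (ball p R) (fun a => ka R p l a) (fR R p) 2
    (by
      intro x hx
      rw [mem_ball, not_le] at hx
      exact fR_far R hR0 p x (by linarith))
    (fun a _ => ka_anti R p l a)
    (by
      intro a _ x y hxy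
      have := ka_supp hl hR hxy
      rw [mem_ball, mem_ball]
      exact ⟨by linarith [this.2.2.2.2.1], by linarith [this.2.2.2.2.2.1]⟩)
    (fun e => kl_edgeJ hG hl hρ hR p e)
    (fun a b => tnorm (a - b) ≤ 7 * l)
    (fun a b h => by rw [tnorm_sub_comm]; exact h)
    hfar _ _ (K' * R ^ 2 * l ^ 2) hA0 hB0 hA hB (hnear L p R l hl hlR)
  have hEn := (hg p).2.2.1
  have e1 : K' * R ^ 2 * l ^ 2 * (2 * (6 * (K₁ * K ^ 2 / (l ^ 2 * R ^ 2))) +
      4 * (K₁ * K / (l ^ 2 * R ^ 2))) = K' * (12 * (K₁ * K ^ 2) + 4 * (K₁ * K)) := by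
    field_simp
    ring
  calc W.E (UU G β (kl R p l) 2 ^ 2)
      ≤ _ := key
    _ ≤ K₁ * K + K' * (12 * (K₁ * K ^ 2) + 4 * (K₁ * K)) := by rw [e1]; linarith
    _ ≤ K₁ * (1 + K ^ 2) + K' * (12 * (K₁ * (1 + K ^ 2)) + 4 * (K₁ * (1 + K ^ 2))) := by
        have h1 : K ≤ 1 + K ^ 2 := by nlinarith [_root_.sq_nonneg (K - 1)]
        have h2 : K ^ 2 ≤ 1 + K ^ 2 := by linarith
        gcongr
    _ = _ := by ring

end Pool.Agent.Y13.QM
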