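import Pool.Agent.Y13.QM.Cross
import Pool.Agent.Y13.QM.Single
import Pool.Agent.H467R2.ONJ.Main

/-! # The influence bound with an explicit scale -/

set_option autoImplicit false
set_option linter.unusedSectionVars false

noncomputable section

namespace Pool.Agent.Y13.QM

open MvPolynomial Pool.Agent.H5R2.ON Pool.Agent.H717R2.ON3 Pool.Agent.H983R2.ONJ

/-- the number of scales -/
theorem choice_n (C₁ ε : ℝ) (hC₁ : 0 < C₁) (hε : 0 < ε) : ∃ c : ℝ, 0 < c ∧ ∀ K : ℝ, 0 ≤ K →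
    ∃ n : ℕ, 0 < n ∧ C₁ * (1 + K ^ 2) / n ≤ ε / 2 ∧ (n : ℝ) ≤ c * (1 + K ^ 2) := by
  refine ⟨2 * C₁ / ε + 2, by positivity, ?_⟩
  intro K hK
  have h0 : 0 ≤ 2 * C₁ * (1 + K ^ 2) / ε := by positivity
  refine ⟨⌈2 * C₁ * (1 + K ^ 2) / ε⌉₊ + 1, by omega, ?_, ?_⟩
  · have h1 := Nat.le_ceil (2 * C₁ * (1 + K ^ 2) / ε)
    push_cast
    rw [div_le_iff₀ (by positivity)]
    rw [div_le_iff₀ hε] at h1
    nlinarith
  · have h1 := (Nat.ceil_lt_add_one h0).le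
    push_cast
    have e1 : (2 * C₁ / ε + 2) * (1 + K ^ 2) = 2 * C₁ * (1 + K ^ 2) / ε + 2 * (1 + K ^ 2) := by
      field_simp
    rw [e1]
    nlinarith [sq_nonneg K]

theorem one_add_sq_le_exp {K : ℝ} (hK : 0 ≤ K) : 1 + K ^ 2 ≤ Real.exp (2 * K) := by
  have h1 := Real.add_one_le_exp K
  have h2 : (K + 1) ^ 2 ≤ Real.exp K ^ 2 := pow_le_pow_left₀ (by positivity) h1 2
  have h3 : Real.exp K ^ 2 = Real.exp (2 * K) := by
    rw [← Real.exp_nat_mul]
    norm_num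
  rw [h3] at h2
  nlinarith

/-- the number of annuli -/
theorem choice_m (C₂ ε K₂ : ℝ) (hC₂ : 0 < C₂) (hε : 0 < ε) (hK₂ : 0 < K₂) : ∃ c : ℝ, 0 < c ∧
    ∀ K : ℝ, 0 ≤ K → ∃ m n₀ : ℕ, 0 < n₀ ∧ K₂ * K ≤ n₀ ∧
      C₂ * (1 + K ^ 2) * (1 / 2) ^ m ≤ ε / 2 ∧ (((n₀ + 1) * m : ℕ) : ℝ) ≤ c * (1 + K ^ 2) := by
  have hl : 0 < Real.log 2 := Real.log_pos (by norm_num)
  obtain ⟨b, hb1, hb⟩ : ∃ b : ℝ, 1 ≤ b ∧ 2 * C₂ / ε ≤ b := ⟨max 1 (2 * C₂ / ε), le_max_left _ _,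
    le_max_right _ _⟩
  have hlb : 0 ≤ Real.log b := Real.log_nonneg hb1
  obtain ⟨s, hs⟩ : ∃ s : ℝ, s = Real.log b / Real.log 2 + 1 := ⟨_, rfl⟩
  have hs1 : 1 ≤ s := by
    rw [hs]
    have : 0 ≤ Real.log b / Real.log 2 := by positivity
    linarith
  obtain ⟨t, ht⟩ : ∃ t : ℝ, t = 2 / Real.log 2 := ⟨_, rfl⟩
  have ht0 : 0 < t := by rw [ht]; positivity
  refine ⟨4 * (K₂ + 3) * (s + t), by positivity, ?_⟩
  intro K hK
  have hy0 : 0 ≤ (Real.log b + 2 * K) / Real.log 2 := by positivity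
  refine ⟨⌈(Real.log b + 2 * K) / Real.log 2⌉₊, ⌈K₂ * K⌉₊ + 1, by omega, ?_, ?_, ?_⟩
  · push_cast
    have := Nat.le_ceil (K₂ * K)
    linarith
  · obtain ⟨m, hm⟩ : ∃ m : ℕ, m = ⌈(Real.log b + 2 * K) / Real.log 2⌉₊ := ⟨_, rfl⟩
    rw [← hm]
    have h1 : (Real.log b + 2 * K) / Real.log 2 ≤ m := by rw [hm]; exact Nat.le_ceil _
    rw [div_le_iff₀ hl] at h1
    have h2 : b * Real.exp (2 * K) ≤ 2 ^ m := by
      have h3 : Real.exp (Real.log b + 2 * K) ≤ Real.exp ((m : ℝ) * Real.log 2) :=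
        Real.exp_le_exp.2 h1
      rw [Real.exp_add, Real.exp_log (by linarith)] at h3
      refine h3.trans (le_of_eq ?_)
      rw [mul_comm, Real.exp_mul, Real.exp_log (by norm_num), Real.rpow_natCast]
    have h4 : 2 * C₂ / ε * (1 + K ^ 2) ≤ 2 ^ m := by
      refine le_trans ?_ h2
      exact mul_le_mul hb (one_add_sq_le_exp hK) (by positivity) (by linarith)
    have h5 : (1 / 2 : ℝ) ^ m * 2 ^ m = 1 := by
      rw [← mul_pow]
      norm_num
    have h6 : 0 < (1 / 2 : ℝ) ^ m := by positivity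
    have h7 : (2 * C₂ / ε * (1 + K ^ 2)) * (1 / 2 : ℝ) ^ m ≤ 1 := by
      calc (2 * C₂ / ε * (1 + K ^ 2)) * (1 / 2 : ℝ) ^ m ≤ 2 ^ m * (1 / 2 : ℝ) ^ m :=
            mul_le_mul_of_nonneg_right h4 h6.le
        _ = 1 := by rw [mul_comm]; exact h5
    have h8 : C₂ * (1 + K ^ 2) * (1 / 2 : ℝ) ^ m =
        ε / 2 * ((2 * C₂ / ε * (1 + K ^ 2)) * (1 / 2 : ℝ) ^ m) := by
      field_simp
    rw [h8]
    nlinarith
  · push_cast
    have h1 := (Nat.ceil_lt_add_one (show 0 ≤ K₂ * K by positivity)).le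
    have h2 := (Nat.ceil_lt_add_one hy0).le
    have h3 : (Real.log b + 2 * K) / Real.log 2 + 1 = s + t * K := by
      rw [hs, ht]
      field_simp
      ring
    rw [h3] at h2
    have h4 : ((⌈K₂ * K⌉₊ : ℝ) + 1 + 1) ≤ (K₂ + 3) * (1 + K) := by nlinarith
    have h5 : s + t * K ≤ (s + t) * (1 + K) := by nlinarith
    have h6 : (1 + K) ^ 2 ≤ 4 * (1 + K ^ 2) := by nlinarith [sq_nonneg (K - 1), sq_nonneg K]
    calc ((⌈K₂ * K⌉₊ : ℝ) + 1 + 1) * (⌈(Real.log b + 2 * K) / Real.log 2⌉₊ : ℝ)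
        ≤ ((K₂ + 3) * (1 + K)) * ((s + t) * (1 + K)) :=
          mul_le_mul h4 (h2.trans h5) (by positivity) (by positivity)
      _ = (K₂ + 3) * (s + t) * (1 + K) ^ 2 := by ring
      _ ≤ (K₂ + 3) * (s + t) * (4 * (1 + K ^ 2)) :=
          mul_le_mul_of_nonneg_left h6 (by positivity)
      _ = 4 * (K₂ + 3) * (s + t) * (1 + K ^ 2) := by ring

theorem main_bound (ε : ℝ) (hε : 0 < ε) : ∃ C : ℝ, 0 < C ∧ ∀ K : ℝ, 0 ≤ K →
    ∀ R : ℝ, Real.exp (C * (1 + K ^ 2)) ≤ R → ∀ (L : ℕ) [NeZero L], 2 * R < L →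
      ∀ {ι : Type} [Fintype ι]
      (G : Gr (Tor L) ι) (β ρ : ℝ), Nice G β ρ K → 1 ≤ ρ → ρ ≤ √R → ∀ (p : Tor L)
      (W : WFun G β (ball p R)), ∃ U : Alg (Tor L),
      W.E (U ^ 2) ≤ ε ∧ W.E (X (p, 0)) = W.E (U * X (p, 1)) ∧
      ∀ σ σ' : Tor L × Fin 3 → ℝ,
        (∀ x, R / 8 ≤ tnorm (x - p) → ∀ g, σ (x, g) = σ' (x, g)) →
          eval σ U = eval σ' U := by
  classical
  obtain ⟨C₁, hC₁, hone⟩ := single_scale
  obtain ⟨C₂, hC₂, hcross⟩ := cross_scale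
  obtain ⟨K₂, hK₂, hchain⟩ := chain_exists
  obtain ⟨c₁, hc₁, hn⟩ := choice_n C₁ ε hC₁ hε
  obtain ⟨c₂, hc₂, hm⟩ := choice_m C₂ ε K₂ hC₂ hε hK₂
  refine ⟨10 + 6 * (c₁ + c₂), by positivity, ?_⟩
  intro K hK R hR L _ hL ι _ G β ρ hG hρ1 hρR p W
  obtain ⟨n, hn0, hn1, hn2⟩ := hn K hK
  obtain ⟨m, n₀, hn₀, hKn₀, hm1, hm2⟩ := hm K hK
  -- the size of R
  have hbig : (100 * 16 ^ ((n₀ + 1) * m + n)) ^ 2 ≤ R := by
    refine le_trans ?_ hR
    have h1 : (100 : ℝ) ≤ Real.exp 5 := by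
      have h2 : (2.7 : ℝ) < Real.exp 1 := by
        have := Real.exp_one_gt_d9
        linarith
      have h3 : Real.exp 5 = Real.exp 1 ^ 5 := by
        rw [← Real.exp_nat_mul]
        norm_num
      rw [h3]
      have h4 : (2.7 : ℝ) ^ 5 ≤ Real.exp 1 ^ 5 := pow_le_pow_left₀ (by norm_num) h2.le 5
      norm_num at h4 ⊢
      linarith
    have h16 : (16 : ℝ) ≤ Real.exp 3 := by
      have h2 : (2.7 : ℝ) < Real.exp 1 := by
        have := Real.exp_one_gt_d9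
        linarith
      have h3 : Real.exp 3 = Real.exp 1 ^ 3 := by
        rw [← Real.exp_nat_mul]
        norm_num
      rw [h3]
      have h4 : (2.7 : ℝ) ^ 3 ≤ Real.exp 1 ^ 3 := pow_le_pow_left₀ (by norm_num) h2.le 3
      norm_num at h4 ⊢
      linarith
    have h5 : (16 : ℝ) ^ ((n₀ + 1) * m + n) ≤
        Real.exp (3 * (((n₀ + 1) * m + n : ℕ) : ℝ)) := by
      have h6 : (16 : ℝ) ^ ((n₀ + 1) * m + n) ≤ Real.exp 3 ^ ((n₀ + 1) * m + n) :=
        pow_le_pow_left₀ (by norm_num) h16 _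
      refine h6.trans (le_of_eq ?_)
      rw [← Real.exp_nat_mul, mul_comm]
    have h7 : 100 * (16 : ℝ) ^ ((n₀ + 1) * m + n) ≤
        Real.exp (5 + 3 * (((n₀ + 1) * m + n : ℕ) : ℝ)) := by
      rw [Real.exp_add]
      exact mul_le_mul h1 h5 (by positivity) (Real.exp_pos _).le
    have h8 := pow_le_pow_left₀ (by positivity) h7 2
    refine h8.trans ?_
    rw [← Real.exp_nat_mul]
    refine Real.exp_le_exp.2 ?_
    have h9 : (((n₀ + 1) * m + n : ℕ) : ℝ) ≤ (c₁ + c₂) * (1 + K ^ 2) := by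
      rw [Nat.cast_add]
      linarith
    push_cast at h9 ⊢
    nlinarith [sq_nonneg K]
  have hR0 : 0 < R := lt_of_lt_of_le (by positivity) hbig
  have hs0 : 0 < √R := Real.sqrt_pos.2 hR0
  have hss : √R * √R = R := Real.mul_self_sqrt hR0.le
  have hs16 : 100 * 16 ^ ((n₀ + 1) * m + n) ≤ √R := Real.le_sqrt_of_sq_le hbig
  have h16 : ∀ j : ℕ, (1 : ℝ) ≤ 16 ^ j := fun j => one_le_pow₀ (by norm_num)
  have hs100 : 100 ≤ √R := by
    have := h16 ((n₀ + 1) * m + n)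
    linarith
  have hρ24 : ρ ≤ R / 24 := by
    rw [le_div_iff₀ (by norm_num)]
    nlinarith
  have hρ0 : 0 ≤ ρ := by linarith
  set l : ℕ → ℝ := fun j => 16 ^ j * ρ with hl
  have hρl : ∀ j, ρ ≤ l j := fun j => by
    have := mul_le_mul_of_nonneg_right (h16 j) hρ0
    rwa [one_mul] at this
  have hl1 : ∀ j, 1 ≤ l j := fun j => hρ1.trans (hρl j)
  have hln : ∀ j < n, l j ≤ 16 ^ n * √R := by
    intro j hj
    have h1 : (16 : ℝ) ^ j ≤ 16 ^ n := pow_le_pow_right₀ (by norm_num) hj.le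
    exact mul_le_mul h1 hρR hρ0 (by positivity)
  have hlC : ∀ j < n, 16 ^ ((n₀ + 1) * m) * (7 * l j) ≤ 3 * R / 10 := by
    intro j hj
    have h1 := hln j hj
    have h2 : 100 * 16 ^ ((n₀ + 1) * m + n) * √R ≤ √R * √R :=
      mul_le_mul_of_nonneg_right hs16 hs0.le
    rw [hss, pow_add] at h2
    have h3 : (16 : ℝ) ^ ((n₀ + 1) * m) * (7 * l j) ≤
        16 ^ ((n₀ + 1) * m) * (7 * (16 ^ n * √R)) := by
      refine mul_le_mul_of_nonneg_left ?_ (by positivity)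
      linarith
    have h4 : (16 : ℝ) ^ ((n₀ + 1) * m) * (7 * (16 ^ n * √R)) =
        7 / 100 * (100 * (16 ^ ((n₀ + 1) * m) * 16 ^ n) * √R) := by ring
    rw [h4] at h3
    linarith
  have hlR : ∀ j < n, 100 * l j ≤ R := by
    intro j hj
    have h1 := hln j hj
    have h2 : 100 * 16 ^ n * √R ≤ √R * √R := by
      refine mul_le_mul_of_nonneg_right (le_trans ?_ hs16) hs0.le
      refine mul_le_mul_of_nonneg_left ?_ (by norm_num)
      exact pow_le_pow_right₀ (by norm_num) (Nat.le_add_left _ _)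
    linarith
  have h1 : ∀ i < n, W.E (UU G β (kl R p (l i)) 2 ^ 2) ≤ C₁ * (1 + K ^ 2) := by
    intro i hi
    exact hone K hK R (l i) ρ β (hl1 i) hρ0 (hρl i) (hlR i hi) L hL G hG p W
  have h2 : ∀ i < n, ∀ j < n, i < j →
      |W.E (UU G β (kl R p (l j)) 2 * UU G β (kl R p (l i)) 2)| ≤ ε / 2 := by
    intro i hi j hj hij
    refine (hcross K hK R (l i) (l j) ρ β m (hl1 i) hρ0 (hρl i) ?_ (hlR j hj) L hL G hG p W
      ?_).trans hm1
    · have h3 : (16 : ℝ) ^ (i + 1) ≤ 16 ^ j := pow_le_pow_right₀ (by norm_num) hij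
      rw [pow_succ] at h3
      have h4 := mul_le_mul_of_nonneg_right h3 hρ0
      show 16 * (16 ^ i * ρ) ≤ 16 ^ j * ρ
      linarith
    · intro a ha
      refine hchain L G β ρ K hG hρ0 hK n₀ hn₀ hKn₀ (ball p R) a (3 * R / 10) ?_ m (7 * l i)
        (by linarith [hl1 i]) (by linarith [hl1 i, hρl i]) (hlC i hi)
      intro x hx
      rw [mem_ball]
      have := tri x a p
      linarith
  refine ⟨-((1 / (n : ℝ)) • ∑ j ∈ Finset.range n, UU G β (kl R p (l j)) 2), ?_, ?_, ?_⟩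
  · refine (Aux467.avg_sq W hn0 _ (by positivity) h1 h2).trans ?_
    linarith
  · rw [neg_mul, smul_mul_assoc, Finset.sum_mul, map_neg, map_smul, map_sum]
    have hn' : (0 : ℝ) < n := by exact_mod_cast hn0
    rw [Finset.sum_congr rfl fun j hj =>
      Aux467.ibp_scale W hG (hl1 j) (hρl j) (hlR j (Finset.mem_range.1 hj))]
    rw [Finset.sum_const, Finset.card_range, nsmul_eq_mul, smul_eq_mul]
    field_simp
  · intro σ σ' hσ
    have h3 : ∀ j ∈ Finset.range n, eval σ (UU G β (kl R p (l j)) 2) =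
        eval σ' (UU G β (kl R p (l j)) 2) := by
      intro j hj
      have hj' := Finset.mem_range.1 hj
      apply eval_UU_congr G β (A := {x : Tor L | R / 8 ≤ tnorm (x - p)})
        (B := {x : Tor L | R / 6 ≤ tnorm (x - p)})
      · intro x y h
        obtain ⟨h4, h5, _⟩ := kl_supp (hl1 j) (hlR j hj') h
        exact ⟨h4, h5⟩
      · intro e he
        have h4 := hG.range e
        have h5 := tri (G.s e) (G.t e) p
        have h6 := tri (G.t e) (G.s e) p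
        rw [tnorm_sub_comm (G.s e) (G.t e)] at h5
        simp only [Set.mem_ofPred_eq] at he ⊢
        rcases he with h | h
        · exact ⟨by linarith, by linarith⟩
        · exact ⟨by linarith, by linarith⟩
      · intro x hx j
        exact hσ x hx j
    simp only [map_neg, smul_eval, map_sum]
    rw [Finset.sum_congr rfl h3]

end Pool.Agent.Y13.QM
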