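import Pool.Agent.Y13.QM.Spin
import Pool.Agent.H983R2.ONJ.GeoB

/-! # Nested cut-off functions with small energy -/

set_option autoImplicit false
set_option linter.unusedSectionVars false

noncomputable section

namespace Pool.Agent.Y13.QM

open MvPolynomial Pool.Agent.H5R2.ON Pool.Agent.H717R2.ON3 Pool.Agent.H983R2.ONJ

theorem tri {L : ℕ} [NeZero L] (x y z : Tor L) :
    tnorm (x - z) ≤ tnorm (x - y) + tnorm (y - z) := by
  have h := tnorm_add_le (x - y) (y - z)
  rwa [sub_add_sub_cancel] at h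

/-- the cut-off function of one annulus -/
def ann {L : ℕ} (n : ℕ) (r : ℝ) (a x : Tor L) : ℝ :=
  1 / (n : ℝ) * ∑ j ∈ Finset.range n, fR (4 * (16 ^ j * r)) a x

theorem ann_one {L : ℕ} {n : ℕ} (hn : 0 < n) {r : ℝ} (hr : 1 ≤ r) {a x : Tor L}
    (h : tnorm (x - a) ≤ r) : ann n r a x = 1 := by
  unfold ann
  have hn' : (0 : ℝ) < n := by exact_mod_cast hn
  have h1 : ∀ j ∈ Finset.range n, fR (4 * (16 ^ j * r)) a x = 1 := by
    intro j _
    have h16 : (1 : ℝ) ≤ 16 ^ j := one_le_pow₀ (by norm_num)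
    refine fR_near _ (by positivity) _ _ ?_
    have : r ≤ 16 ^ j * r := by nlinarith
    linarith
  rw [Finset.sum_congr rfl h1, Finset.sum_const, Finset.card_range, nsmul_eq_mul, mul_one]
  field_simp

theorem ann_zero {L : ℕ} {n : ℕ} {r : ℝ} (hr : 1 ≤ r) {a x : Tor L}
    (h : 16 ^ n * r ≤ tnorm (x - a)) : ann n r a x = 0 := by
  unfold ann
  rw [Finset.sum_eq_zero, mul_zero]
  intro j hj
  have hjn := Finset.mem_range.1 hj
  have h16 : (16 : ℝ) ^ (j + 1) ≤ 16 ^ n := pow_le_pow_right₀ (by norm_num) hjn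
  refine fR_far _ (by positivity) _ _ ?_
  have h0 : (0 : ℝ) < 16 ^ j * r := by positivity
  have : 16 * (16 ^ j * r) ≤ 16 ^ n * r := by
    calc 16 * (16 ^ j * r) = 16 ^ (j + 1) * r := by ring
      _ ≤ _ := mul_le_mul_of_nonneg_right h16 (by linarith)
  linarith

theorem ann_energy : ∃ K₂ : ℝ, 0 < K₂ ∧ ∀ (L : ℕ) [NeZero L] {ι : Type} [Fintype ι]
    (G : Gr (Tor L) ι) (β ρ K : ℝ), Nice G β ρ K → 0 ≤ ρ → 0 ≤ K →
    ∀ (a : Tor L) (r : ℝ) (n : ℕ), 1 ≤ r → ρ ≤ r → 0 < n →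
    β * En G (ann n r a) ≤ K₂ * K / n := by
  classical
  obtain ⟨K₁, hK₁, hen⟩ := energyJ
  refine ⟨100 * K₁, by positivity, ?_⟩
  intro L _ ι _ G β ρ K hG hρ hK a r n hr hρr hn
  have hn' : (0 : ℝ) < n := by exact_mod_cast hn
  set q : ℕ → ι → ℝ := fun j e => grad G (fR (4 * (16 ^ j * r)) a) e with hq
  have hrj : ∀ j : ℕ, r ≤ 16 ^ j * r := by
    intro j
    have h16 : (1 : ℝ) ≤ 16 ^ j := one_le_pow₀ (by norm_num)
    nlinarith
  -- one annulus
  have hone : ∀ j, β * En G (fR (4 * (16 ^ j * r)) a) ≤ 100 * K₁ * K := by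
    intro j
    have hR : 0 < 4 * (16 ^ j * r) := by have := hrj j; linarith
    have h := hen L G β ρ K hG hρ hK (fR (4 * (16 ^ j * r)) a) a (4 * (16 ^ j * r) / 2)
      (4 / (4 * (16 ^ j * r))) (by positivity) (by positivity)
      (fun x y => Aux493C.fR_lip _ hR a x y) (fun x hx => Aux493C.fR_supp _ hR a x hx)
    refine h.trans ?_
    obtain ⟨s, hs⟩ : ∃ s : ℝ, s = 16 ^ j * r := ⟨_, rfl⟩
    have hs1 : r ≤ s := by rw [hs]; exact hrj j
    rw [← hs]
    have hs0 : 0 < s := by linarith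
    have e1 : K₁ * K * (1 + 4 * s / 2 + ρ) ^ 2 * (4 / (4 * s)) ^ 2 =
        K₁ * K * ((1 + 2 * s + ρ) / s) ^ 2 := by
      field_simp
      ring
    rw [e1]
    have h2 : (1 + 2 * s + ρ) / s ≤ 10 := by
      rw [div_le_iff₀ hs0]
      linarith
    have h3 : 0 ≤ (1 + 2 * s + ρ) / s := by positivity
    have h4 : ((1 + 2 * s + ρ) / s) ^ 2 ≤ 100 := by nlinarith
    have h5 : 0 ≤ K₁ * K := by positivity
    nlinarith
  -- disjoint supports
  have hdis : ∀ e, ∀ i ∈ Finset.range n, ∀ j ∈ Finset.range n, i < j → q i e * q j e = 0 := by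
    intro e i _ j _ hij
    by_contra hne
    have h1 : q i e ≠ 0 := left_ne_zero_of_mul hne
    have h2 : q j e ≠ 0 := right_ne_zero_of_mul hne
    have hr0 : 0 < 16 ^ i * r := by have := hrj i; linarith
    have hrj0 : 0 < 16 ^ j * r := by have := hrj j; linarith
    have hcmp : 16 * (16 ^ i * r) ≤ 16 ^ j * r := by
      have h16 : (16 : ℝ) ^ (i + 1) ≤ 16 ^ j := pow_le_pow_right₀ (by norm_num) hij
      calc 16 * (16 ^ i * r) = 16 ^ (i + 1) * r := by ring
        _ ≤ _ := mul_le_mul_of_nonneg_right h16 (by linarith)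
    -- one end is near
    have h3 : tnorm (G.s e - a) < 2 * (16 ^ i * r) ∨ tnorm (G.t e - a) < 2 * (16 ^ i * r) := by
      by_contra hc
      push Not at hc
      apply h1
      show fR _ a (G.t e) - fR _ a (G.s e) = 0
      rw [fR_far _ (by linarith) a (G.t e) (by linarith [hc.2]),
        fR_far _ (by linarith) a (G.s e) (by linarith [hc.1]), sub_self]
    have h4 : 16 ^ j * r < tnorm (G.s e - a) ∨ 16 ^ j * r < tnorm (G.t e - a) := by
      by_contra hc
      push Not at hc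
      apply h2
      show fR _ a (G.t e) - fR _ a (G.s e) = 0
      rw [fR_near _ (by linarith) a (G.t e) (by linarith [hc.2]),
        fR_near _ (by linarith) a (G.s e) (by linarith [hc.1]), sub_self]
    have h5 := edge_nearJ hG e a (2 * (16 ^ i * r)) (h3.imp le_of_lt le_of_lt) hρ
    have h6 : ρ ≤ 16 ^ i * r := hρr.trans (hrj i)
    rcases h4 with h4 | h4 <;> linarith [h5.1, h5.2]
  have hsq : ∀ e, (∑ j ∈ Finset.range n, q j e) ^ 2 = ∑ j ∈ Finset.range n, q j e ^ 2 := by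
    intro e
    rw [pow_two, Finset.sum_mul_sum]
    refine Finset.sum_congr rfl fun i hi => ?_
    rw [Finset.sum_eq_single i]
    · ring
    · intro j hj hji
      rcases lt_or_gt_of_ne hji with h | h
      · rw [mul_comm]; exact hdis e j hj i hi h
      · exact hdis e i hi j hj h
    · intro h; exact absurd hi h
  have hgr : ∀ e, grad G (ann n r a) e = 1 / (n : ℝ) * ∑ j ∈ Finset.range n, q j e := by
    intro e
    unfold grad ann
    rw [← mul_sub, ← Finset.sum_sub_distrib]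
    rfl
  have hEn : En G (ann n r a) = (1 / (n : ℝ)) ^ 2 *
      ∑ j ∈ Finset.range n, En G (fR (4 * (16 ^ j * r)) a) := by
    unfold En
    rw [Finset.sum_comm, Finset.mul_sum]
    refine Finset.sum_congr rfl fun e _ => ?_
    rw [hgr e, mul_pow, hsq e]
  rw [hEn]
  have h7 : β * ((1 / (n : ℝ)) ^ 2 * ∑ j ∈ Finset.range n, En G (fR (4 * (16 ^ j * r)) a)) =
      (1 / (n : ℝ)) ^ 2 * ∑ j ∈ Finset.range n, β * En G (fR (4 * (16 ^ j * r)) a) := by
    rw [← Finset.mul_sum]; ring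
  rw [h7]
  have h8 : ∑ j ∈ Finset.range n, β * En G (fR (4 * (16 ^ j * r)) a) ≤ n * (100 * K₁ * K) := by
    refine (Finset.sum_le_sum fun j _ => hone j).trans (le_of_eq ?_)
    rw [Finset.sum_const, Finset.card_range, nsmul_eq_mul]
  calc (1 / (n : ℝ)) ^ 2 * ∑ j ∈ Finset.range n, β * En G (fR (4 * (16 ^ j * r)) a)
      ≤ (1 / (n : ℝ)) ^ 2 * (n * (100 * K₁ * K)) := mul_le_mul_of_nonneg_left h8 (by positivity)
    _ = 100 * K₁ * K / n := by field_simp

/-- existence of chains of nested cut-off functions -/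
theorem chain_exists : ∃ K₂ : ℝ, 0 < K₂ ∧ ∀ (L : ℕ) [NeZero L] {ι : Type} [Fintype ι]
    (G : Gr (Tor L) ι) (β ρ K : ℝ), Nice G β ρ K → 0 ≤ ρ → 0 ≤ K → ∀ (n : ℕ), 0 < n →
    K₂ * K ≤ n → ∀ (Λ : Finset (Tor L)) (a : Tor L) (R' : ℝ),
    (∀ x, tnorm (x - a) ≤ R' → x ∈ Λ) → ∀ (m : ℕ) (r : ℝ), 1 ≤ r → ρ ≤ r →
    16 ^ ((n + 1) * m) * r ≤ R' → Chain G β Λ (3 / 4) m {z | tnorm (z - a) ≤ r} := by
  obtain ⟨K₂, hK₂, hen⟩ := ann_energy
  refine ⟨4 / 3 * K₂, by positivity, ?_⟩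
  intro L _ ι _ G β ρ K hG hρ hK n hn hKn Λ a R' hΛ m
  have hn' : (0 : ℝ) < n := by exact_mod_cast hn
  induction m with
  | zero => intro r _ _ _; trivial
  | succ m ih =>
    intro r hr hρr hR
    have h16 : (1 : ℝ) ≤ 16 ^ n := one_le_pow₀ (by norm_num)
    have h16m : (1 : ℝ) ≤ 16 ^ ((n + 1) * m) := one_le_pow₀ (by norm_num)
    have hsplit : (16 : ℝ) ^ ((n + 1) * (m + 1)) * r = 16 ^ ((n + 1) * m) * (16 ^ (n + 1) * r) := by
      rw [mul_add, mul_one, pow_add]; ring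
    rw [hsplit] at hR
    have hr2 : r ≤ 16 ^ (n + 1) * r := by
      have : (1 : ℝ) ≤ 16 ^ (n + 1) := one_le_pow₀ (by norm_num)
      nlinarith
    have hout : 16 ^ n * r ≤ R' := by
      have h1 : 16 ^ n * r ≤ 16 ^ (n + 1) * r := by
        have : (16 : ℝ) ^ n ≤ 16 ^ (n + 1) := pow_le_pow_right₀ (by norm_num) (Nat.le_succ n)
        nlinarith
      have h2 : 16 ^ (n + 1) * r ≤ 16 ^ ((n + 1) * m) * (16 ^ (n + 1) * r) := by
        have : 0 ≤ 16 ^ (n + 1) * r := by positivity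
        nlinarith
      linarith
    refine ⟨ann n r a, {z | tnorm (z - a) ≤ 16 ^ (n + 1) * r}, ?_, ?_, ?_, ?_, ?_, ?_⟩
    · intro x hx
      exact ann_one hn hr hx
    · intro x hx
      refine ann_zero hr ?_
      by_contra h
      exact hx (hΛ x (by linarith [not_le.1 h]))
    · refine (hen L G β ρ K hG hρ hK a r n hr hρr hn).trans ?_
      rw [div_le_iff₀ hn']
      linarith
    · intro x hx
      have hx' : tnorm (x - a) ≤ r := hx
      show tnorm (x - a) ≤ 16 ^ (n + 1) * r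
      linarith
    · intro i
      refine Loc_Sc G β (B := {z | tnorm (z - a) ≤ 16 ^ n * r}) ?_ ?_ i
      · intro x hx
        by_contra h
        exact hx (ann_zero hr (not_le.1 h).le)
      · intro e he
        have h1 := edge_nearJ hG e a (16 ^ n * r) he hρ
        have h2 : 16 ^ n * r + ρ ≤ 16 ^ (n + 1) * r := by
          have e1 : (16 : ℝ) ^ (n + 1) * r = 16 * (16 ^ n * r) := by ring
          have e2 : r ≤ 16 ^ n * r := by nlinarith
          rw [e1]
          linarith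
        exact ⟨h1.1.trans h2, h1.2.trans h2⟩
    · exact ih (16 ^ (n + 1) * r) (hr.trans hr2) (hρr.trans hr2) hR

end Pool.Agent.Y13.QM
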