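import Pool.Agent.H717R2.ON3.Fun3

/-! # Iterated Mermin-Wagner bound for tensor observables -/

set_option autoImplicit false
set_option linter.unusedSectionVars false

noncomputable section

namespace Pool.Agent.Y13.QM

open MvPolynomial Pool.Agent.H717R2.ON3

variable {V ι : Type} [Fintype V] [DecidableEq V] [Fintype ι] {G : Gr V ι} {β : ℝ}
  {Λ : Finset V}

/-- action of the infinitesimal rotation about the axis `i` on the index `g` of a vector -/
def rot (i g : Fin 3) (u : Fin 3 → Alg V) : Alg V :=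
  if g = i + 1 then -u (i + 2) else if g = i + 2 then u (i + 1) else 0

/-- `T` transforms like a tensor of rank two under global rotations -/
def Cov (T : Fin 3 → Fin 3 → Alg V) : Prop :=
  ∀ i g h, R (fun _ => 1) i (T g h) = rot i g (fun g' => T g' h) + rot i h (fun h' => T g h')

/-- one step: the new tensor -/
def stp (J : Fin 3 → Alg V) (T : Fin 3 → Fin 3 → Alg V) (g h : Fin 3) : Alg V :=
  J (g + 1) * T (g + 2) h - J (g + 2) * T (g + 1) h +
    (J (h + 1) * T g (h + 2) - J (h + 2) * T g (h + 1))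

/-- the vector property -/
def CovV (J : Fin 3 → Alg V) : Prop :=
  ∀ i g, R (fun _ => 1) i (J g) = rot i g J

theorem covV_Sc (b : V → ℝ) : CovV (fun g => Sc G β b g) := by
  intro i g
  have h0 := R_one_JJ0 G β (grad G b) i
  have h1 := R_one_JJ1 G β (grad G b) i
  have h2 := R_one_JJ2 G β (grad G b) i
  unfold rot
  rcases alg1_cases i g with rfl | rfl | rfl
  · rw [if_neg (alg1_n01 g), if_neg (alg1_n02 g)]
    exact h0
  · rw [if_pos rfl]
    exact h1
  · rw [if_neg (alg1_n21 i), if_pos rfl]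
    exact h2

theorem covV_UU {k : V → V → ℝ} (hk : Anti k) : CovV (fun g => UU G β k g) := by
  intro i g
  unfold rot
  rcases alg1_cases i g with rfl | rfl | rfl
  · rw [if_neg (alg1_n01 g), if_neg (alg1_n02 g)]
    exact UU_vec0 G β hk g
  · rw [if_pos rfl]
    have h := UU_vec2 G β hk (i + 1)
    rw [alg1_f12, alg1_f11] at h
    exact h
  · rw [if_neg (alg1_n21 i), if_pos rfl]
    have h := UU_vec1 G β hk (i + 2)
    rw [alg1_f21, alg1_f22] at h
    exact h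

theorem cov_mul {J K : Fin 3 → Alg V} (hJ : CovV J) (hK : CovV K) :
    Cov (fun g h => J g * K h) := by
  intro i g h
  rw [Derivation.leibniz, hJ i g, hK i h]
  unfold rot
  simp only [smul_eq_mul]
  split_ifs <;> ring

theorem cov_stp {J : Fin 3 → Alg V} {T : Fin 3 → Fin 3 → Alg V} (hJ : CovV J) (hT : Cov T) :
    Cov (stp J T) := by
  intro i g h
  unfold stp
  simp only [map_add, map_sub, Derivation.leibniz, smul_eq_mul, hJ i _, hT i _ _]
  unfold rot
  fin_cases i <;> fin_cases g <;> fin_cases h <;> simp [Fin.ext_iff] <;> ring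

/-- the sum of the squares of the components -/
def sqn (T : Fin 3 → Fin 3 → Alg V) : Alg V := ∑ g, ∑ h, T g h ^ 2

theorem sqn_inv {T : Fin 3 → Fin 3 → Alg V} (hT : Cov T) (i : Fin 3) :
    R (fun _ => 1) i (sqn T) = 0 := by
  unfold sqn
  simp only [Fin.sum_univ_three, map_add, Derivation.leibniz_pow, hT i _ _]
  unfold rot
  fin_cases i <;> simp [Fin.ext_iff] <;> ring

theorem Loc_sqn {A : Set V} {T : Fin 3 → Fin 3 → Alg V} (h : ∀ g h, Loc A (T g h)) :
    Loc A (sqn T) := by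
  unfold sqn
  refine Loc.sum _ _ fun g _ => Loc.sum _ _ fun h' _ => ?_
  rw [pow_two]
  exact Loc.mul (h g h') (h g h')

theorem eval_sqn_nonneg (T : Fin 3 → Fin 3 → Alg V) (σ : V × Fin 3 → ℝ) :
    0 ≤ eval σ (sqn T) := by
  unfold sqn
  rw [map_sum]
  refine Finset.sum_nonneg fun g _ => ?_
  rw [map_sum]
  refine Finset.sum_nonneg fun h _ => ?_
  rw [map_pow]
  positivity

theorem stp_real (J : Fin 3 → ℝ) (T : Fin 3 → Fin 3 → ℝ) :
    ∑ g, ∑ h, (J (g + 1) * T (g + 2) h - J (g + 2) * T (g + 1) h +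
      (J (h + 1) * T g (h + 2) - J (h + 2) * T g (h + 1))) ^ 2 ≤
      4 * (∑ i, J i ^ 2) * ∑ g, ∑ h, T g h ^ 2 := by
  have cross : ∀ (J u : Fin 3 → ℝ), ∑ g, (J (g + 1) * u (g + 2) - J (g + 2) * u (g + 1)) ^ 2 ≤
      (∑ i, J i ^ 2) * ∑ g, u g ^ 2 := by
    intro J u
    simp only [Fin.sum_univ_three]
    have e1 : (0 : Fin 3) + 1 = 1 := rfl
    have e2 : (0 : Fin 3) + 2 = 2 := rfl
    have e3 : (1 : Fin 3) + 1 = 2 := rfl
    have e4 : (1 : Fin 3) + 2 = 0 := rfl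
    have e5 : (2 : Fin 3) + 1 = 0 := rfl
    have e6 : (2 : Fin 3) + 2 = 1 := rfl
    rw [e1, e2, e3, e4, e5, e6]
    nlinarith [sq_nonneg (J 0 * u 0 + J 1 * u 1 + J 2 * u 2)]
  have h1 : ∀ g h : Fin 3, (J (g + 1) * T (g + 2) h - J (g + 2) * T (g + 1) h +
      (J (h + 1) * T g (h + 2) - J (h + 2) * T g (h + 1))) ^ 2 ≤
      2 * (J (g + 1) * T (g + 2) h - J (g + 2) * T (g + 1) h) ^ 2 +
        2 * (J (h + 1) * T g (h + 2) - J (h + 2) * T g (h + 1)) ^ 2 := by
    intro g h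
    nlinarith [sq_nonneg ((J (g + 1) * T (g + 2) h - J (g + 2) * T (g + 1) h) -
      (J (h + 1) * T g (h + 2) - J (h + 2) * T g (h + 1)))]
  refine (Finset.sum_le_sum fun g _ => Finset.sum_le_sum fun h _ => h1 g h).trans ?_
  simp only [Finset.sum_add_distrib, ← Finset.mul_sum]
  have h2 : ∑ g, ∑ h, (J (g + 1) * T (g + 2) h - J (g + 2) * T (g + 1) h) ^ 2 ≤
      (∑ i, J i ^ 2) * ∑ g, ∑ h, T g h ^ 2 := by
    rw [Finset.sum_comm, Finset.sum_comm (f := fun g h => T g h ^ 2), Finset.mul_sum]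
    exact Finset.sum_le_sum fun h _ => cross J fun g => T g h
  have h3 : ∑ g, ∑ h, (J (h + 1) * T g (h + 2) - J (h + 2) * T g (h + 1)) ^ 2 ≤
      (∑ i, J i ^ 2) * ∑ g, ∑ h, T g h ^ 2 := by
    rw [Finset.mul_sum]
    exact Finset.sum_le_sum fun g _ => cross J fun h => T g h
  linarith

/-- the functional which kills the trace -/
def ee (W : WFun G β Λ) (T : Fin 3 → Fin 3 → Alg V) : ℝ :=
  W.E (T 0 0) + W.E (T 1 1) - 2 * W.E (T 2 2)

theorem sc_sq_mul (W : WFun G β Λ) (hβ : 0 ≤ β) {φ : V → ℝ} (hφΛ : ∀ x, x ∉ Λ → φ x = 0)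
    {A : Set V} (hφ : ∀ x ∈ A, φ x = 1) {F : Alg V} (hF : Loc A F)
    (hinv : ∀ i, R (fun _ => 1) i F = 0) (hpos : ∀ σ : V × Fin 3 → ℝ, 0 ≤ eval σ F)
    (i : Fin 3) : W.E (Sc G β φ i ^ 2 * F) ≤ β * En G φ * W.E F := by
  have h1 : W.E (Sc G β φ i ^ 2 * F) = W.E (R φ i (Sc G β φ i * F)) := by
    rw [W.ibpR hφΛ i (Sc G β φ i * F)]
    congr 1
    ring
  have h2 : R φ i F = 0 := by
    rw [← hinv i]
    exact R_congr_loc hF (fun x hx => hφ x hx) i
  have h3 : R φ i (Sc G β φ i * F) = ∑ e, (β * grad G φ e ^ 2) • (F * eps G e i) := by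
    rw [Derivation.leibniz, h2, smul_zero, zero_add, R_Sc_self, smul_eq_mul, Finset.mul_sum]
    refine Finset.sum_congr rfl fun e _ => ?_
    simp only [smul_eq_C_mul, map_mul, map_pow]
    ring
  have h4 : ∀ e, W.E (F * eps G e i) ≤ W.E F := by
    intro e
    refine W.mono (fun σ hσ => ?_)
    rw [map_mul]
    have a1 := WFun.eval_eps_le (G := G) e i σ hσ
    have a2 := hpos σ
    nlinarith
  rw [h1, h3, map_sum]
  have h5 : β * En G φ * W.E F = ∑ e, (β * grad G φ e ^ 2) * W.E F := by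
    unfold En
    rw [← Finset.sum_mul, ← Finset.mul_sum]
  rw [h5]
  refine Finset.sum_le_sum (fun e _ => ?_)
  rw [map_smul, smul_eq_mul]
  exact mul_le_mul_of_nonneg_left (h4 e) (by positivity)

theorem stp_sqn (W : WFun G β Λ) (hβ : 0 ≤ β) {φ : V → ℝ} (hφΛ : ∀ x, x ∉ Λ → φ x = 0)
    {A : Set V} (hφ : ∀ x ∈ A, φ x = 1) {T : Fin 3 → Fin 3 → Alg V} (hT : Cov T)
    (hloc : ∀ g h, Loc A (T g h)) :
    W.E (sqn (stp (fun i => Sc G β φ i) T)) ≤ 12 * (β * En G φ) * W.E (sqn T) := by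
  have h1 : W.E (sqn (stp (fun i => Sc G β φ i) T)) ≤
      W.E ((4 : ℝ) • ∑ i, (Sc G β φ i ^ 2 * sqn T)) := by
    refine W.mono fun σ _ => ?_
    have h := stp_real (fun i => eval σ (Sc G β φ i)) (fun g h => eval σ (T g h))
    unfold sqn stp
    simp only [map_sum, map_pow, map_add, map_sub, map_mul, smul_eval]
    refine h.trans (le_of_eq ?_)
    rw [mul_assoc, Finset.sum_mul]
  refine h1.trans ?_
  rw [map_smul, map_sum, smul_eq_mul]
  have h2 : ∑ i, W.E (Sc G β φ i ^ 2 * sqn T) ≤ ∑ _i : Fin 3, β * En G φ * W.E (sqn T) :=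
    Finset.sum_le_sum fun i _ => sc_sq_mul W hβ hφΛ hφ (Loc_sqn hloc) (sqn_inv hT)
      (eval_sqn_nonneg T) i
  rw [Finset.sum_const, Finset.card_univ, Fintype.card_fin] at h2
  simp only [nsmul_eq_mul] at h2
  push_cast at h2
  linarith

theorem stp_ee (W : WFun G β Λ) {φ : V → ℝ} (hφΛ : ∀ x, x ∉ Λ → φ x = 0)
    {A : Set V} (hφ : ∀ x ∈ A, φ x = 1) {T : Fin 3 → Fin 3 → Alg V} (hT : Cov T)
    (hloc : ∀ g h, Loc A (T g h)) :
    ee W (stp (fun i => Sc G β φ i) T) = -6 * ee W T := by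
  have key : ∀ i g h, W.E (Sc G β φ i * T g h) =
      W.E (rot i g (fun g' => T g' h) + rot i h (fun h' => T g h')) := by
    intro i g h
    rw [← hT i g h, ← W.ibpR hφΛ i (T g h)]
    congr 1
    exact R_congr_loc (hloc g h) (fun x hx => hφ x hx) i
  unfold ee stp
  simp only [map_add, map_sub, key]
  unfold rot
  simp [Fin.ext_iff]
  ring

/-- a chain of nested cut-off functions, each of small energy -/
def Chain (G : Gr V ι) (β : ℝ) (Λ : Finset V) (δ : ℝ) : ℕ → Set V → Prop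
  | 0, _ => True
  | m + 1, A => ∃ φ : V → ℝ, ∃ B : Set V, (∀ x ∈ A, φ x = 1) ∧ (∀ x, x ∉ Λ → φ x = 0) ∧
      β * En G φ ≤ δ ∧ A ⊆ B ∧ (∀ i, Loc B (Sc G β φ i)) ∧ Chain G β Λ δ m B

theorem chain_bound (W : WFun G β Λ) (hβ : 0 ≤ β) {δ : ℝ} (hδ : δ ≤ 3 / 4) :
    ∀ (m : ℕ) (A : Set V) (T : Fin 3 → Fin 3 → Alg V), Cov T → (∀ g h, Loc A (T g h)) →
      Chain G β Λ δ m A → |ee W T| ≤ 3 * (1 / 2) ^ m * √(W.E (sqn T)) := by
  intro m
  induction m with
  | zero =>
    intro A T hT hloc _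
    have h1 : ∀ g h, |W.E (T g h)| ≤ √(W.E (T g h ^ 2)) := by
      intro g h
      have h := W.cs_abs 1 (T g h)
      rw [one_mul, one_pow, W.one, Real.sqrt_one, one_mul] at h
      exact h
    have hsq : ∀ g h, 0 ≤ W.E (T g h ^ 2) := fun g h => W.sq_nonneg _
    have h2 : W.E (T 0 0 ^ 2) + W.E (T 1 1 ^ 2) + W.E (T 2 2 ^ 2) ≤ W.E (sqn T) := by
      unfold sqn
      simp only [Fin.sum_univ_three, map_add]
      have a := hsq 0 1
      have b := hsq 0 2
      have c := hsq 1 0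
      have d := hsq 1 2
      have e := hsq 2 0
      have f := hsq 2 1
      linarith
    have h3 : |ee W T| ≤ √(W.E (T 0 0 ^ 2)) + √(W.E (T 1 1 ^ 2)) + 2 * √(W.E (T 2 2 ^ 2)) := by
      unfold ee
      have a := abs_le.1 (h1 0 0)
      have b := abs_le.1 (h1 1 1)
      have c := abs_le.1 (h1 2 2)
      rw [abs_le]
      constructor <;> linarith [a.1, a.2, b.1, b.2, c.1, c.2]
    refine h3.trans ?_
    rw [pow_zero, mul_one]
    have h4 : √(W.E (T 0 0 ^ 2)) + √(W.E (T 1 1 ^ 2)) + 2 * √(W.E (T 2 2 ^ 2)) ≤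
        √(9 * W.E (sqn T)) := by
      refine Real.le_sqrt_of_sq_le ?_
      have a := Real.sq_sqrt (hsq 0 0)
      have b := Real.sq_sqrt (hsq 1 1)
      have c := Real.sq_sqrt (hsq 2 2)
      set x := √(W.E (T 0 0 ^ 2))
      set y := √(W.E (T 1 1 ^ 2))
      set z := √(W.E (T 2 2 ^ 2))
      nlinarith [sq_nonneg (x - y), sq_nonneg (2 * x - z), sq_nonneg (2 * y - z)]
    refine h4.trans ?_
    rw [Real.sqrt_mul (by norm_num), show (9 : ℝ) = 3 ^ 2 by norm_num,
      Real.sqrt_sq (by norm_num)]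
  | succ m ih =>
    intro A T hT hloc hch
    obtain ⟨φ, B, hφ, hφΛ, hE, hAB, hB, hch'⟩ := hch
    set S := stp (fun i => Sc G β φ i) T with hS
    have hS1 : Cov S := cov_stp (covV_Sc φ) hT
    have hS2 : ∀ g h, Loc B (S g h) := by
      intro g h
      have hT' : ∀ g h, Loc B (T g h) := fun g h => (hloc g h).mono hAB
      have hm : ∀ i g h, Loc B (Sc G β φ i * T g h) := fun i g h => Loc.mul (hB i) (hT' g h)
      have hn : ∀ {F : Alg V}, Loc B F → Loc B (-F) := by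
        intro F hF x hx g
        rw [map_neg, hF x hx g, neg_zero]
      rw [hS]
      unfold stp
      rw [sub_eq_add_neg, sub_eq_add_neg]
      exact Loc.add (Loc.add (hm _ _ _) (hn (hm _ _ _))) (Loc.add (hm _ _ _) (hn (hm _ _ _)))
    have h1 := ih B S hS1 hS2 hch'
    have h2 : ee W S = -6 * ee W T := stp_ee W hφΛ hφ hT hloc
    have h3 : W.E (sqn S) ≤ 12 * (β * En G φ) * W.E (sqn T) := stp_sqn W hβ hφΛ hφ hT hloc
    have h0 : 0 ≤ W.E (sqn T) := W.pos _ fun σ _ => eval_sqn_nonneg T σ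
    have h4 : W.E (sqn S) ≤ 9 * W.E (sqn T) := by
      refine h3.trans (mul_le_mul_of_nonneg_right ?_ h0)
      linarith
    have h5 : √(W.E (sqn S)) ≤ 3 * √(W.E (sqn T)) := by
      refine (Real.sqrt_le_sqrt h4).trans (le_of_eq ?_)
      rw [Real.sqrt_mul (by norm_num), show (9 : ℝ) = 3 ^ 2 by norm_num,
        Real.sqrt_sq (by norm_num)]
    rw [h2, abs_mul, abs_neg, abs_of_pos (by norm_num : (0 : ℝ) < 6)] at h1
    have h6 : 3 * (1 / 2 : ℝ) ^ m * √(W.E (sqn S)) ≤ 3 * (1 / 2) ^ m * (3 * √(W.E (sqn T))) :=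
      mul_le_mul_of_nonneg_left h5 (by positivity)
    rw [pow_succ]
    linarith

end Pool.Agent.Y13.QM
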