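import Pool.Agent.Y13.QM.Main
import Pool.Agent.Y13.QM.Trunc
import Pool.Agent.H983R2.ONJ.Step

/-! # Decay of the influence of the boundary with explicit constants -/

set_option autoImplicit false
set_option linter.unusedSectionVars false

noncomputable section

namespace Pool.Agent.Y13.QM

open MvPolynomial MeasureTheory Pool.Agent.H5R2.ON Pool.Agent.H717R2.ON3 Pool.Agent.H983R2.ONJ
open Pool.Agent.H983R2.ONJ.Aux993

/-- the truncation error is eventually at most `0.9 / R ^ 4` -/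
theorem err_small (C a : ℝ) (hC : 0 < C) (ha : 0 < a) : ∃ R₁ : ℝ, 1 ≤ R₁ ∧ ∀ R : ℝ, R₁ ≤ R →
    Real.exp (C * R ^ 3 * Real.exp (-(a / 2) * √R)) - 1 ≤ (9 / 10) / R ^ 4 := by
  have h1 : Filter.Tendsto (fun x : ℝ => x ^ 14 * Real.exp (-x)) Filter.atTop (nhds 0) :=
    Real.tendsto_pow_mul_exp_neg_atTop_nhds_zero 14
  have h2 : Filter.Tendsto (fun R : ℝ => (a / 2) * √R) Filter.atTop Filter.atTop :=
    Filter.Tendsto.const_mul_atTop (by positivity) Real.tendsto_sqrt_atTop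
  have h3 := h1.comp h2
  have hpos : (0 : ℝ) < (9 / 20) / C * (a / 2) ^ 14 := by positivity
  have h4 := (h3.eventually (gt_mem_nhds hpos)).and (Filter.eventually_ge_atTop (1 : ℝ))
  obtain ⟨R₁, hR₁⟩ := Filter.eventually_atTop.1 h4
  refine ⟨max R₁ 1, le_max_right _ _, ?_⟩
  intro R hR
  obtain ⟨h5, h6⟩ := hR₁ R ((le_max_left _ _).trans hR)
  have hR0 : 0 < R := by linarith
  simp only [Function.comp] at h5
  have h7 : (a / 2 * √R) ^ 14 = (a / 2) ^ 14 * R ^ 7 := by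
    rw [mul_pow]
    congr 1
    calc √R ^ 14 = (√R ^ 2) ^ 7 := by ring
      _ = R ^ 7 := by rw [Real.sq_sqrt hR0.le]
  rw [h7] at h5
  have h8 : -(a / 2 * √R) = -(a / 2) * √R := by ring
  rw [h8] at h5
  set E := Real.exp (-(a / 2) * √R) with hE
  have hE0 : 0 < E := Real.exp_pos _
  have h9 : R ^ 7 * E < (9 / 20) / C := by
    have h10 : (a / 2) ^ 14 * (R ^ 7 * E) < (a / 2) ^ 14 * ((9 / 20) / C) := by
      calc (a / 2) ^ 14 * (R ^ 7 * E) = (a / 2) ^ 14 * R ^ 7 * E := by ring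
        _ < (9 / 20) / C * (a / 2) ^ 14 := h5
        _ = _ := by ring
    exact lt_of_mul_lt_mul_left h10 (by positivity)
  have h11 : C * (R ^ 7 * E) < 9 / 20 := by
    have := mul_lt_mul_of_pos_left h9 hC
    rwa [mul_div_cancel₀ _ hC.ne'] at this
  set x := C * R ^ 3 * E with hx
  have hx0 : 0 < x := by positivity
  have h12 : x * R ^ 4 < 9 / 20 := by
    calc x * R ^ 4 = C * (R ^ 7 * E) := by rw [hx]; ring
      _ < _ := h11
  have h13 : x ≤ 1 := by
    have h14 : (1 : ℝ) ≤ R ^ 4 := one_le_pow₀ h6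
    have h15 : x * 1 ≤ x * R ^ 4 := mul_le_mul_of_nonneg_left h14 hx0.le
    linarith
  have h16 : Real.exp x - 1 ≤ 2 * x := by
    have h17 := Real.abs_exp_sub_one_le (x := x) (by rw [abs_of_pos hx0]; exact h13)
    rw [abs_of_pos hx0] at h17
    exact (le_abs_self _).trans h17
  refine h16.trans ?_
  rw [le_div_iff₀ (by positivity)]
  linarith

theorem one_add_le_exp_sq {A : ℝ} (hA : 0 ≤ A) : 1 + A ≤ Real.exp (1 + A ^ 2) := by
  have h1 := Real.add_one_le_exp (1 + A ^ 2)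
  nlinarith [sq_nonneg (A - 1)]

theorem MBJ_step' (a : ℝ) (ha : 0 < a) (ε : ℝ) (hε : 0 < ε) : ∃ C : ℝ, 1 ≤ C ∧ ∀ A : ℝ, 0 ≤ A →
    ∀ N : ℕ, 3 ≤ N → ∀ R : ℝ, Real.exp (C * (1 + A ^ 2)) ≤ R → ∀ m : ℝ, 0 ≤ m →
      MBJ N A a (R / 10) m → MBJ N A a R (ε * m + (9 / 10) / R ^ 4) := by
  obtain ⟨K, hK, hnice⟩ := nice_lin a ha
  obtain ⟨C, hC, htr⟩ := trunc_lin a ha
  obtain ⟨C₀, hC₀, hmain⟩ := main_bound (ε ^ 2) (by positivity)
  obtain ⟨R₁, hR₁, herr⟩ := err_small C a hC ha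
  refine ⟨C₀ * (1 + K ^ 2) + Real.log R₁ + 1, ?_, ?_⟩
  · have := Real.log_nonneg hR₁
    nlinarith [mul_pos hC₀ (show 0 < 1 + K ^ 2 by positivity)]
  intro A hA N hN R hR m hm hMB L _ hL c hc p η i
  have hN0 : N ≠ 0 := by omega
  have hlog := Real.log_nonneg hR₁
  have hR0 : Real.exp (C₀ * (1 + (A * K) ^ 2)) ≤ R := by
    refine le_trans (Real.exp_le_exp.2 ?_) hR
    have h1 : C₀ * (1 + (A * K) ^ 2) ≤ C₀ * (1 + K ^ 2) * (1 + A ^ 2) := by
      rw [mul_assoc]
      refine mul_le_mul_of_nonneg_left ?_ hC₀.le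
      nlinarith [sq_nonneg A, sq_nonneg K]
    nlinarith [sq_nonneg A, mul_nonneg hlog (sq_nonneg A)]
  have hRR₁ : R₁ ≤ R := by
    refine le_trans ?_ hR
    rw [← Real.exp_log (by linarith : 0 < R₁)]
    refine Real.exp_le_exp.2 ?_
    rw [Real.exp_log (by linarith : 0 < R₁)]
    have : 0 < C₀ * (1 + K ^ 2) := by positivity
    nlinarith [sq_nonneg A, mul_nonneg hlog (sq_nonneg A), mul_nonneg this.le (sq_nonneg A)]
  have hAR : 1 + A ≤ R := by
    refine (one_add_le_exp_sq hA).trans (le_trans (Real.exp_le_exp.2 ?_) hR)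
    have : 0 < C₀ * (1 + K ^ 2) := by positivity
    nlinarith [sq_nonneg A, mul_nonneg hlog (sq_nonneg A), mul_nonneg this.le (sq_nonneg A)]
  have hR1 : 1 ≤ R := hR₁.trans hRR₁
  have hRpos : 0 < R := by linarith
  have hsq : 1 ≤ √R := Real.one_le_sqrt.2 hR1
  obtain ⟨k, n, hn, hkc, hkr, hcomp⟩ := htr A hA L c hc p R (√R) hR1 (Real.sqrt_nonneg R)
  have hNice := hnice A hA L k n (√R) hn (Real.sqrt_nonneg R) hkc hkr
  have hHeq : (fun S : Conf N L => (1 / (n : ℝ)) * enG (gJ k) S) =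
      pS (fun e => (k e : ℝ) / n) := by
    funext S
    exact enG_gJ k n S
  have h1 : |gH (fun S : Conf N L => (1 / (n : ℝ)) * enG (gJ k) S) (ball p R) η
      (fun S => cc i (S p))| ≤ ε * m := by
    refine core hN hε (gJ k) (1 / (n : ℝ)) R m hRpos hm p ?_ ?_ η i
    · intro W
      exact hmain (A * K) (by positivity) R hR0 L hL (gJ k) (1 / (n : ℝ)) (√R) hNice hsq le_rfl
        p W
    · intro η' j
      rw [hHeq]
      exact hMB L (by linarith) _ hkc p η' j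
  have hFc : Continuous (fun S : Conf N L => cc i (S p)) :=
    (st_cc_cont _).comp (continuous_apply _)
  have h2 := hcomp N hN0 η (fun S => cc i (S p)) hFc.measurable
    (fun S => st_cc_abs_le _ _)
  have h3 : gH (pS c) (ball p R) η (fun S => cc i (S p)) =
      gH (fun S : Conf N L => (1 / (n : ℝ)) * enG (gJ k) S) (ball p R) η
        (fun S => cc i (S p)) +
      (gH (pS c) (ball p R) η (fun S => cc i (S p)) -
        gH (fun S : Conf N L => (1 / (n : ℝ)) * enG (gJ k) S) (ball p R) η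
          (fun S => cc i (S p))) := by ring
  have h4 : Real.exp (C * (1 + A) * R ^ 2 * Real.exp (-(a / 2) * √R)) - 1 ≤ (9 / 10) / R ^ 4 := by
    refine le_trans ?_ (herr R hRR₁)
    refine sub_le_sub_right (Real.exp_le_exp.2 ?_) 1
    refine mul_le_mul_of_nonneg_right ?_ (Real.exp_pos _).le
    have h5 : C * (1 + A) * R ^ 2 ≤ C * R * R ^ 2 := by gcongr
    refine h5.trans (le_of_eq (by ring))
  rw [h3]
  exact (abs_add_le _ _).trans (add_le_add h1 (h2.trans h4))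

theorem MBJ_decay' (a : ℝ) (ha : 0 < a) : ∃ C : ℝ, 1 ≤ C ∧ ∀ A : ℝ, 0 ≤ A → ∀ N : ℕ, 3 ≤ N →
    ∀ R : ℝ, 1 ≤ R → MBJ N A a R (Real.exp (C * (1 + A ^ 2)) / R ^ 4) := by
  obtain ⟨C, hC, hstep⟩ := MBJ_step' a ha (1 / 100000) (by norm_num)
  refine ⟨4 * (C + 9), by linarith, ?_⟩
  intro A hA N hN
  set R₂ : ℝ := Real.exp ((C + 9) * (1 + A ^ 2)) with hR₂
  have hR₂0 : Real.exp (C * (1 + A ^ 2)) ≤ R₂ := by
    refine Real.exp_le_exp.2 ?_
    nlinarith [sq_nonneg A]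
  have hR₂2 : 10 ≤ R₂ := by
    have h1 := Real.add_one_le_exp ((C + 9) * (1 + A ^ 2))
    nlinarith [sq_nonneg A]
  have hpow : Real.exp (4 * (C + 9) * (1 + A ^ 2)) = R₂ ^ 4 := by
    rw [hR₂, ← Real.exp_nat_mul]
    congr 1
    push_cast
    ring
  rw [hpow]
  have hC1 : (1 : ℝ) ≤ R₂ ^ 4 := one_le_pow₀ (by linarith)
  have hP : ∀ (k : ℕ) (R : ℝ), 1 ≤ R → R ≤ R₂ * 10 ^ k → MBJ N A a R (R₂ ^ 4 / R ^ 4) := by
    have hbase : ∀ R : ℝ, 1 ≤ R → R ≤ R₂ → MBJ N A a R (R₂ ^ 4 / R ^ 4) := by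
      intro R hR hR2
      refine st_MBJ_mono (st_MBJ_one N hN A a R) ?_
      rw [le_div_iff₀ (by positivity), one_mul]
      exact pow_le_pow_left₀ (by linarith) hR2 4
    intro k
    induction k with
    | zero =>
      intro R hR hR2
      rw [pow_zero, mul_one] at hR2
      exact hbase R hR hR2
    | succ k ih =>
      intro R hR hR2
      by_cases h : R ≤ R₂
      · exact hbase R hR h
      · push Not at h
        have hRpos : 0 < R := by linarith
        have h1 : MBJ N A a (R / 10) (R₂ ^ 4 / (R / 10) ^ 4) := by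
          refine ih (R / 10) (by linarith) ?_
          rw [pow_succ] at hR2
          linarith
        have h2 := hstep A hA N hN R (by linarith) (R₂ ^ 4 / (R / 10) ^ 4) (by positivity) h1
        refine st_MBJ_mono h2 ?_
        have h4 : 1 / 100000 * (R₂ ^ 4 / (R / 10) ^ 4) = (1 / 10) * (R₂ ^ 4 / R ^ 4) := by
          field_simp
          norm_num
        have h5 : (9 / 10) / R ^ 4 ≤ (9 / 10) * (R₂ ^ 4 / R ^ 4) := by
          rw [← mul_div_assoc]
          refine div_le_div_of_nonneg_right ?_ (by positivity)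
          linarith
        rw [h4]
        linarith
  intro R hR
  obtain ⟨k, hk⟩ : ∃ k : ℕ, R < R₂ * 10 ^ k := by
    obtain ⟨k, hk⟩ := pow_unbounded_of_one_lt (R / R₂) (by norm_num : (1 : ℝ) < 10)
    refine ⟨k, ?_⟩
    rw [div_lt_iff₀ (by linarith)] at hk
    linarith
  exact hP k R hR hk.le

end Pool.Agent.Y13.QM
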